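import Mathlib

/-!
The polynomial form of the shrinker equation in the coordinates `x + i y`, `x - i y`, `i z`.
-/

namespace D3

/-- a vector in the coordinates `x + i y`, `x - i y`, `i z` -/
@[ext] structure V3 (R : Type*) where
  s : R
  t : R
  z : R

namespace V3

variable {R : Type*} [CommRing R]

/-- the sum of two vectors -/
def add (A B : V3 R) : V3 R := ⟨A.s + B.s, A.t + B.t, A.z + B.z⟩

/-- a multiple of a vector -/
def sm (c : R) (A : V3 R) : V3 R := ⟨c * A.s, c * A.t, c * A.z⟩

/-- twice the inner product -/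
def dot (A B : V3 R) : R := A.s * B.t + A.t * B.s - 2 * (A.z * B.z)

/-- twice the triple product -/
def det (A B C : V3 R) : R :=
  A.s * (B.t * C.z - B.z * C.t) - A.t * (B.s * C.z - B.z * C.s) + A.z * (B.s * C.t - B.t * C.s)

/-- minus sixteen times the polynomial of the shrinker equation -/
def PZ (X a b cuu cuv cvv : V3 R) : R :=
  4 * (dot b b * det cuu a b - 2 * (dot a b * det cuv a b) + dot a a * det cvv a b) +
    (dot a a * dot b b - dot a b * dot a b) * det X a b

theorem dot_sm (c d : R) (A B : V3 R) : dot (sm c A) (sm d B) = c * d * dot A B := by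
  simp only [dot, sm]; ring

theorem det_sm (c d e : R) (A B C : V3 R) :
    det (sm c A) (sm d B) (sm e C) = c * d * e * det A B C := by
  simp only [det, sm]; ring

theorem det_sm' (d e : R) (A B C : V3 R) :
    det A (sm d B) (sm e C) = d * e * det A B C := by
  simp only [det, sm]; ring

/-- the normalising factor may be put inside -/
theorem PZ_sm (m : R) (X a b cuu cuv cvv : V3 R) :
    PZ X (sm m a) (sm m b) (sm (m ^ 2) cuu) (sm (m ^ 2) cuv) (sm (m ^ 2) cvv) =
      m ^ 6 * PZ X a b cuu cuv cvv := by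
  have h1 : det (sm (m ^ 2) cuu) (sm m a) (sm m b) = m ^ 2 * m * m * det cuu a b := det_sm _ _ _ _ _ _
  have h2 : det (sm (m ^ 2) cuv) (sm m a) (sm m b) = m ^ 2 * m * m * det cuv a b := det_sm _ _ _ _ _ _
  have h3 : det (sm (m ^ 2) cvv) (sm m a) (sm m b) = m ^ 2 * m * m * det cvv a b := det_sm _ _ _ _ _ _
  simp only [PZ, dot_sm, h1, h2, h3, det_sm']; ring

/-- the image of a vector under a ring homomorphism -/
def map {S : Type*} [CommRing S] (f : R →+* S) (A : V3 R) : V3 S := ⟨f A.s, f A.t, f A.z⟩

theorem map_dot {S : Type*} [CommRing S] (f : R →+* S) (A B : V3 R) :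
    f (dot A B) = dot (map f A) (map f B) := by
  simp only [dot, map, map_add, map_sub, map_mul, map_ofNat]

theorem map_det {S : Type*} [CommRing S] (f : R →+* S) (A B C : V3 R) :
    f (det A B C) = det (map f A) (map f B) (map f C) := by
  simp only [det, map, map_add, map_sub, map_mul]

theorem map_PZ {S : Type*} [CommRing S] (f : R →+* S) (X a b cuu cuv cvv : V3 R) :
    f (PZ X a b cuu cuv cvv) =
      PZ (map f X) (map f a) (map f b) (map f cuu) (map f cuv) (map f cvv) := by
  simp only [PZ, map_add, map_sub, map_mul, map_ofNat, map_dot, map_det]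

end V3

/-- The vector `(x, y, z)` twisted by `e = e^{iv}`, with the factor `c` (a power of `i`). -/
def tw {R : Type*} [CommRing R] (c e e' : R) (A : V3 R) : V3 R :=
  ⟨c * (e * A.s), c * (e' * A.t), c * A.z⟩

theorem dot_tw {R : Type*} [CommRing R] {c d e e' : R} (h : e * e' = 1) (A B : V3 R) :
    V3.dot (tw c e e' A) (tw d e e' B) = c * d * V3.dot A B := by
  simp only [V3.dot, tw]
  linear_combination (c * d * (A.s * B.t + A.t * B.s)) * h

theorem det_tw {R : Type*} [CommRing R] {c d f e e' : R} (h : e * e' = 1) (A B C : V3 R) :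
    V3.det (tw c e e' A) (tw d e e' B) (tw f e e' C) = c * d * f * V3.det A B C := by
  simp only [V3.det, tw]
  linear_combination (c * d * f * (A.s * (B.t * C.z - B.z * C.t) - A.t * (B.s * C.z - B.z * C.s) +
    A.z * (B.s * C.t - B.t * C.s))) * h

theorem PZ_tw {i e e' : ℂ} (hi : i * i = -1) (h : e * e' = 1) (X a b cuu cuv cvv : V3 ℂ) :
    V3.PZ (tw 1 e e' X) (tw i e e' a) (tw i e e' b) (tw (-1) e e' cuu) (tw (-1) e e' cuv)
      (tw (-1) e e' cvv) = - V3.PZ X a b cuu cuv cvv := by
  simp only [V3.PZ, dot_tw h, det_tw h]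
  linear_combination (-4 * (i * i - 1) * (V3.dot b b * V3.det cuu a b -
    2 * (V3.dot a b * V3.det cuv a b) + V3.dot a a * V3.det cvv a b) +
    (i * i * (i * i) - i * i + 1) * ((V3.dot a a * V3.dot b b - V3.dot a b * V3.dot a b) *
      V3.det X a b)) * hi

end D3
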