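import Pool.Agent.H.MP_ce2c94_gt.D3Asm
import Pool.Agent.H.MP_ce2c94_gt.h36.BrPoly

/-!
Twisted evaluation of elements of an algebra with their derivatives.
-/

open Complex
open scoped ContDiff ComplexConjugate

namespace D3

/-- a real linear map of the plane with complex values -/
noncomputable def lc (a b : ℂ) : ℝ × ℝ →L[ℝ] ℂ :=
  (ContinuousLinearMap.fst ℝ ℝ ℝ).smulRight a + (ContinuousLinearMap.snd ℝ ℝ ℝ).smulRight b

theorem lc_apply (a b : ℂ) (z : ℝ × ℝ) : lc a b z = z.1 • a + z.2 • b := by simp [lc]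

theorem lc_smul_add (a b a' b' : ℂ) : lc a b + lc a' b' = lc (a + a') (b + b') := by
  ext <;> simp [lc_apply]

theorem hasFDerivAt_L {F : ℝ × ℝ → ℂ} {a b : ℂ} {p : ℝ × ℝ} (h : HasFDerivAt F (lc a b) p)
    (L : ℂ →L[ℝ] ℝ) : HasFDerivAt (fun q => L (F q)) (lf (L a) (L b)) p := by
  have h1 := L.hasFDerivAt.comp p h
  have h2 : L.comp (lc a b) = lf (L a) (L b) := by
    ext z
    · simp [lc_apply, lf_apply]
    · simp [lc_apply, lf_apply]
  rw [h2] at h1
  exact h1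

theorem hasFDerivAt_mulc {F : ℝ × ℝ → ℂ} {a b : ℂ} {p : ℝ × ℝ} (h : HasFDerivAt F (lc a b) p)
    (c : ℂ) : HasFDerivAt (fun q => c * F q) (lc (c * a) (c * b)) p := by
  have h1 := h.const_mul c
  have h2 : c • lc a b = lc (c * a) (c * b) := by
    ext <;> simp [lc_apply]
  rw [h2] at h1
  exact h1

theorem hasFDerivAt_conj {F G : ℝ × ℝ → ℂ} {a b a' b' : ℂ} {p : ℝ × ℝ}
    (hF : HasFDerivAt F (lc a b) p) (hG : HasFDerivAt G (lc a' b') p)
    (h : ∀ q, conj (F q) = G q) : conj a = a' ∧ conj b = b' := by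
  have h1 := (Complex.conjCLE : ℂ →L[ℝ] ℂ).hasFDerivAt.comp p hF
  have h2 : ((Complex.conjCLE : ℂ →L[ℝ] ℂ) ∘ F) = G := by
    funext q
    exact h q
  rw [h2] at h1
  have h3 := h1.unique hG
  constructor
  · have := congrArg (fun T : ℝ × ℝ →L[ℝ] ℂ => T (1, 0)) h3
    simpa [lc_apply] using this
  · have := congrArg (fun T : ℝ × ℝ →L[ℝ] ℂ => T (0, 1)) h3
    simpa [lc_apply] using this

/-- an element with its derivatives of first and second order -/
structure Jet (R : Type*) where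
  f : R
  fu : R
  ft : R
  fuu : R
  fut : R
  ftt : R

section

variable {W : Type*} [CommRing W] [Algebra ℝ W] (ev : ℝ → ℝ → (W →ₐ[ℝ] ℂ))

/-- `g` and `h` are `-i` times the derivatives of `f` -/
def HasD (f g h : W) : Prop := ∀ p : ℝ × ℝ,
  HasFDerivAt (fun q : ℝ × ℝ => ev q.1 q.2 f) (lc (I * ev p.1 p.2 g) (I * ev p.1 p.2 h)) p

variable {ev}

theorem HasD.add {f g h f' g' h' : W} (H : HasD ev f g h) (H' : HasD ev f' g' h') :
    HasD ev (f + f') (g + g') (h + h') := by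
  intro p
  have h1 := (H p).fun_add (H' p)
  rw [lc_smul_add] at h1
  simp only [map_add, mul_add]
  exact h1

theorem HasD.smul {f g h : W} (H : HasD ev f g h) (c : ℝ) :
    HasD ev (c • f) (c • g) (c • h) := by
  intro p
  have h1 := hasFDerivAt_mulc (H p) c
  simp only [map_smul, Complex.real_smul]
  refine h1.congr_fderiv ?_
  congr 1 <;> ring

theorem HasD.mul {f g h f' g' h' : W} (H : HasD ev f g h) (H' : HasD ev f' g' h') :
    HasD ev (f * f') (g * f' + f * g') (h * f' + f * h') := by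
  intro p
  have h1 := (H p).fun_mul (H' p)
  simp only [map_mul, map_add]
  refine h1.congr_fderiv ?_
  ext
  · simp [lc_apply]; ring
  · simp [lc_apply]; ring

/-- the function `e^{icv} f(u, kv)` -/
noncomputable def Wf (ev : ℝ → ℝ → (W →ₐ[ℝ] ℂ)) (c k : ℝ) (f : W) (q : ℝ × ℝ) : ℂ :=
  cexp (I * (c * q.2 : ℝ)) * ev q.1 (k * q.2) f

theorem HasD.wf {f g h : W} (H : HasD ev f g h) (c k : ℝ) (p : ℝ × ℝ) :
    HasFDerivAt (Wf ev c k f)
      (lc (I * Wf ev c k g p) (I * Wf ev c k (c • f + k • h) p)) p := by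
  have h1 : HasFDerivAt (fun q : ℝ × ℝ => ((q.1, k * q.2) : ℝ × ℝ))
      ((ContinuousLinearMap.fst ℝ ℝ ℝ).prod (k • ContinuousLinearMap.snd ℝ ℝ ℝ)) p := by
    exact (ContinuousLinearMap.fst ℝ ℝ ℝ).hasFDerivAt.prodMk
      ((ContinuousLinearMap.snd ℝ ℝ ℝ).hasFDerivAt.const_mul k)
  have h2 : HasFDerivAt (fun q : ℝ × ℝ => ev q.1 (k * q.2) f)
      ((lc (I * ev p.1 (k * p.2) g) (I * ev p.1 (k * p.2) h)).comp
        ((ContinuousLinearMap.fst ℝ ℝ ℝ).prod (k • ContinuousLinearMap.snd ℝ ℝ ℝ))) p :=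
    HasFDerivAt.comp p (f := fun q : ℝ × ℝ => ((q.1, k * q.2) : ℝ × ℝ)) (H (p.1, k * p.2)) h1
  have h3 : HasFDerivAt (fun q : ℝ × ℝ => cexp (I * (c * q.2 : ℝ)))
      (lc 0 (cexp (I * (c * p.2 : ℝ)) * (I * c))) p := by
    have h4 : HasFDerivAt (fun q : ℝ × ℝ => I * ((c * q.2 : ℝ) : ℂ)) (lc 0 (I * c)) p := by
      have h5 : HasFDerivAt (fun q : ℝ × ℝ => ((c * q.2 : ℝ) : ℂ)) (lc 0 c) p := by
        have h6 := Complex.ofRealCLM.hasFDerivAt.comp p
          ((ContinuousLinearMap.snd ℝ ℝ ℝ).hasFDerivAt.const_mul c (x := p))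
        refine h6.congr_fderiv ?_
        ext <;> simp [lc_apply]
      have := hasFDerivAt_mulc h5 I
      simpa using this
    refine h4.cexp.congr_fderiv ?_
    ext <;> simp [lc_apply]
  have h4 := h3.fun_mul h2
  unfold Wf
  refine h4.congr_fderiv ?_
  ext
  · simp [lc_apply]; ring
  · simp [lc_apply]; ring

theorem contDiff_wf {f : W} (H : ContDiff ℝ ∞ (fun q : ℝ × ℝ => ev q.1 q.2 f)) (c k : ℝ) :
    ContDiff ℝ ∞ (Wf ev c k f) := by
  unfold Wf
  apply ContDiff.mul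
  · apply ContDiff.cexp
    apply ContDiff.mul contDiff_const
    exact Complex.ofRealCLM.contDiff.comp (contDiff_const.mul contDiff_snd)
  · exact H.comp (contDiff_fst.prodMk (contDiff_const.mul contDiff_snd))

/-- the jet consists of derivatives -/
structure Jet.Ok (ev : ℝ → ℝ → (W →ₐ[ℝ] ℂ)) (J : Jet W) : Prop where
  smooth : ContDiff ℝ ∞ (fun q : ℝ × ℝ => ev q.1 q.2 J.f)
  d : HasD ev J.f J.fu J.ft
  du : HasD ev J.fu J.fuu J.fut
  dt : HasD ev J.ft J.fut J.ftt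

theorem Jet.Ok.jet2 {J : Jet W} (hJ : J.Ok ev) (c k : ℝ) (L : ℂ →L[ℝ] ℝ) :
    Jet2 (fun q => L (Wf ev c k J.f q)) (fun q => L (I * Wf ev c k J.fu q))
      (fun q => L (I * Wf ev c k (c • J.f + k • J.ft) q))
      (fun q => L (I * (I * Wf ev c k J.fuu q)))
      (fun q => L (I * (I * Wf ev c k (c • J.fu + k • J.fut) q)))
      (fun q => L (I * (I * Wf ev c k (c • (c • J.f + k • J.ft) + k • (c • J.ft + k • J.ftt)) q)))
      where
  smooth := L.contDiff.comp (contDiff_wf hJ.smooth c k)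
  d := fun p => hasFDerivAt_L (hJ.d.wf c k p) L
  du := fun p => hasFDerivAt_L (hasFDerivAt_mulc (hJ.du.wf c k p) I) L
  dv := fun p => hasFDerivAt_L (hasFDerivAt_mulc
    (((hJ.d.smul c).add (hJ.dt.smul k)).wf c k p) I) L

/-- the sum of two jets -/
def Jet.add (A B : Jet W) : Jet W :=
  ⟨A.f + B.f, A.fu + B.fu, A.ft + B.ft, A.fuu + B.fuu, A.fut + B.fut, A.ftt + B.ftt⟩

/-- the product of two jets -/
def Jet.mul (A B : Jet W) : Jet W where
  f := A.f * B.f
  fu := A.fu * B.f + A.f * B.fu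
  ft := A.ft * B.f + A.f * B.ft
  fuu := A.fuu * B.f + 2 * (A.fu * B.fu) + A.f * B.fuu
  fut := A.fut * B.f + A.fu * B.ft + A.ft * B.fu + A.f * B.fut
  ftt := A.ftt * B.f + 2 * (A.ft * B.ft) + A.f * B.ftt

theorem Jet.Ok.add {A B : Jet W} (hA : A.Ok ev) (hB : B.Ok ev) : (A.add B).Ok ev where
  smooth := by
    have := hA.smooth.add hB.smooth
    simpa only [Jet.add, map_add] using this
  d := hA.d.add hB.d
  du := hA.du.add hB.du
  dt := hA.dt.add hB.dt

theorem Jet.Ok.mul {A B : Jet W} (hA : A.Ok ev) (hB : B.Ok ev) : (A.mul B).Ok ev where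
  smooth := by
    have := hA.smooth.mul hB.smooth
    simpa only [Jet.mul, map_mul] using this
  d := hA.d.mul hB.d
  du := by
    have := (hA.du.mul hB.d).add (hA.d.mul hB.du)
    unfold Jet.mul
    convert this using 1 <;> ring
  dt := by
    have := (hA.dt.mul hB.d).add (hA.d.mul hB.dt)
    unfold Jet.mul
    convert this using 1 <;> ring

end

end D3
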