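import Pool.Agent.H.MP_ce2c94_gt.D3.Eqn

set_option autoImplicit false

/-!
# The linear part of the nonlinear map in shared form

The six coefficients of `Bg.dF` as expressions in a few vectors and scalars, in the form in which
they are computed.
-/

namespace Pool.MP_ce2c94_gt.D3S

open W93

section Ring

variable {R : Type*} [CommRing R]

/-- `g = η(a,a) η(b,B) - η(a,b) η(a,B)` -/
def gG (eaa eab ebB eaB : R) : R := eaa * ebB - eab * eaB

/-- the second order part of `T_i`, doubled, of the direction `P, Q, R` -/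
def vS (ebb eab eaa : R) (P Q R' : Fin 3 → R) (i : Fin 3) : R :=
  2 * (ebb * P i) - 4 * (eab * Q i) + 2 * (eaa * R' i)

end Ring

namespace Bg

variable {W : Type*} [NormedCommRing W] (β : Bg W)

/-! ### the values of the nodes -/

def xa : Fin 3 → W := sm β.s β.A
def xb : Fin 3 → W := sm β.s β.B
def xp : Fin 3 → W := sm β.s β.p
def xq : Fin 3 → W := sm β.s β.q
def xw : Fin 3 → W := sm β.s β.w
def xV : Fin 3 → W := sm β.s β.V
def xVj : Fin 3 → W := sm β.s β.Vj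
def xV2 : Fin 3 → W := sm β.s β.V2
def xVjj : Fin 3 → W := sm β.s β.Vjj
def xVj2 : Fin 3 → W := sm β.s β.Vj2
def xV22 : Fin 3 → W := sm β.s β.V22
def xn : Fin 3 → W := crs β.xa β.xb
def xebb : W := eta β.xb β.xb
def xeab : W := eta β.xa β.xb
def xeaa : W := eta β.xa β.xa
def xebB : W := eta β.xb β.B
def xeaB : W := eta β.xa β.B
def xg : W := β.xeaa * β.xebB - β.xeab * β.xeaB
def xT (i : Fin 3) : W :=
  2 * (β.xebb * β.xp i) - 4 * (β.xeab * β.xq i) + 2 * (β.xeaa * β.xw i) + β.xg * β.C i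

theorem da_v (i : Fin 3) : (β.da i).v = β.xa i := rfl
theorem db_v (i : Fin 3) : (β.db i).v = β.xb i := rfl
theorem dn_v (i : Fin 3) : (β.dn i).v = β.xn i := by
  fin_cases i <;> rfl
theorem debb_v : β.debb.v = β.xebb := rfl
theorem deab_v : β.deab.v = β.xeab := rfl
theorem deaa_v : β.deaa.v = β.xeaa := rfl
theorem debB_v : β.debB.v = β.xebB := rfl
theorem deaB_v : β.deaB.v = β.xeaB := rfl
theorem dg_v : β.dg.v = β.xg := rfl
theorem du_v (i : Fin 3) : (β.du i).v = β.xebb * β.xp i - (β.xeab * β.xq i + β.xeab * β.xq i) +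
    β.xeaa * β.xw i := rfl
theorem dT_v (i : Fin 3) : (β.dT i).v = β.xT i := by
  change (β.du i).v + (β.du i).v + β.dg.v * β.C i = _
  rw [du_v, dg_v, xT]
  ring

/-- the value of the map -/
theorem dF_v : β.dF.v = dt β.xT β.xn := by
  change (β.dT 0).v * (β.dn 0).v + (β.dT 1).v * (β.dn 1).v + (β.dT 2).v * (β.dn 2).v = _
  simp only [dT_v, dn_v, dt]

theorem dF_d (j : Fin 6) : β.dF.d j =
    dt (fun i => (β.dT i).d j) β.xn + dt β.xT (fun i => (β.dn i).d j) := by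
  change (β.dT 0).v * (β.dn 0).d j + (β.dn 0).v * (β.dT 0).d j +
    ((β.dT 1).v * (β.dn 1).d j + (β.dn 1).v * (β.dT 1).d j) +
    ((β.dT 2).v * (β.dn 2).d j + (β.dn 2).v * (β.dT 2).d j) = _
  simp only [dT_v, dn_v, dt]
  ring

theorem du_d (i : Fin 3) (j : Fin 6) : (β.du i).d j =
    β.xebb * (β.dp i).d j + β.xp i * β.debb.d j
    - 2 * (β.xeab * (β.dq i).d j + β.xq i * β.deab.d j)
    + (β.xeaa * (β.dw i).d j + β.xw i * β.deaa.d j) := by
  change (β.debb.v * (β.dp i).d j + (β.dp i).v * β.debb.d j) -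
    ((β.deab.v * (β.dq i).d j + (β.dq i).v * β.deab.d j) +
      (β.deab.v * (β.dq i).d j + (β.dq i).v * β.deab.d j)) +
    (β.deaa.v * (β.dw i).d j + (β.dw i).v * β.deaa.d j) = _
  rw [debb_v, deab_v, deaa_v]
  change (β.xebb * (β.dp i).d j + β.xp i * β.debb.d j) -
    ((β.xeab * (β.dq i).d j + β.xq i * β.deab.d j) +
      (β.xeab * (β.dq i).d j + β.xq i * β.deab.d j)) +
    (β.xeaa * (β.dw i).d j + β.xw i * β.deaa.d j) = _
  ring

theorem dT_d (i : Fin 3) (j : Fin 6) : (β.dT i).d j =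
    2 * (β.xebb * (β.dp i).d j + β.xp i * β.debb.d j)
    - 4 * (β.xeab * (β.dq i).d j + β.xq i * β.deab.d j)
    + 2 * (β.xeaa * (β.dw i).d j + β.xw i * β.deaa.d j)
    + (β.xg * (β.dC i).d j + β.C i * β.dg.d j) := by
  change (β.du i).d j + (β.du i).d j + (β.dg.v * (β.dC i).d j + (β.dC i).v * β.dg.d j) = _
  rw [du_d, dg_v]
  change _ + (β.xg * (β.dC i).d j + β.C i * β.dg.d j) = _
  ring

theorem dg_d (j : Fin 6) : β.dg.d j = β.xeaa * β.debB.d j + β.xebB * β.deaa.d j -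
    (β.xeab * β.deaB.d j + β.xeaB * β.deab.d j) := rfl

theorem dEta_d (δ δ' : Fin 3 → Du W (Fin 6)) (j : Fin 6) : (dEta δ δ').d j =
    eta (fun i => (δ i).v) (fun i => (δ' i).d j) + eta (fun i => (δ i).d j) (fun i => (δ' i).v) := by
  simp only [dEta, Du.sub, Du.mul, eta]
  ring

theorem dCrs_d (δ δ' : Fin 3 → Du W (Fin 6)) (j : Fin 6) (i : Fin 3) : (dCrs δ δ' i).d j =
    crs (fun i => (δ i).v) (fun i => (δ' i).d j) i +
      crs (fun i => (δ i).d j) (fun i => (δ' i).v) i := by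
  fin_cases i <;>
    simp only [dCrs, Du.sub, Du.mul, crs, Matrix.cons_val_zero, Matrix.cons_val_one,
      Matrix.cons_val, Fin.zero_eta, Fin.mk_one, Fin.reduceFinMk] <;> ring

/-! ### the second order coefficients -/

/-- `⟨s V, a × b⟩` -/
def xU : W := dt β.xV β.xn

private theorem z0 (v : Fin 3 → W) : eta (fun _ => (0 : W)) v = 0 := by simp [eta]
private theorem z1 (v : Fin 3 → W) : eta v (fun _ => (0 : W)) = 0 := by simp [eta]
private theorem z2 (v : Fin 3 → W) (i : Fin 3) : crs (fun _ => (0 : W)) v i = 0 := by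
  fin_cases i <;> simp [crs]
private theorem z3 (v : Fin 3 → W) (i : Fin 3) : crs v (fun _ => (0 : W)) i = 0 := by
  fin_cases i <;> simp [crs]

theorem dn_d (i : Fin 3) (j : Fin 6) : (β.dn i).d j =
    crs β.xa (fun i => (β.db i).d j) i + crs (fun i => (β.da i).d j) β.xb i := by
  rw [dn, dCrs_d]; rfl
theorem debb_d (j : Fin 6) : β.debb.d j =
    eta β.xb (fun i => (β.db i).d j) + eta (fun i => (β.db i).d j) β.xb := by
  rw [debb, dEta_d]; rfl
theorem deab_d (j : Fin 6) : β.deab.d j =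
    eta β.xa (fun i => (β.db i).d j) + eta (fun i => (β.da i).d j) β.xb := by
  rw [deab, dEta_d]; rfl
theorem deaa_d (j : Fin 6) : β.deaa.d j =
    eta β.xa (fun i => (β.da i).d j) + eta (fun i => (β.da i).d j) β.xa := by
  rw [deaa, dEta_d]; rfl
theorem debB_d (j : Fin 6) : β.debB.d j =
    eta β.xb (fun i => (β.dB i).d j) + eta (fun i => (β.db i).d j) β.B := by
  rw [debB, dEta_d]; rfl
theorem deaB_d (j : Fin 6) : β.deaB.d j =
    eta β.xa (fun i => (β.dB i).d j) + eta (fun i => (β.da i).d j) β.B := by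
  rw [deaB, dEta_d]; rfl

theorem dF_3 : β.dF.d 3 = 2 * (β.xebb * β.xU) := by
  have a : (fun i => (β.da i).d 3) = fun _ => 0 := rfl
  have b : (fun i => (β.db i).d 3) = fun _ => 0 := rfl
  have hB : (fun i => (β.dB i).d 3) = fun _ => 0 := rfl
  have e1 : β.debb.d 3 = 0 := by rw [debb_d, b, z0, z1, add_zero]
  have e2 : β.deab.d 3 = 0 := by rw [deab_d, a, b, z0, z1, add_zero]
  have e3 : β.deaa.d 3 = 0 := by rw [deaa_d, a, z0, z1, add_zero]
  have e4 : β.debB.d 3 = 0 := by rw [debB_d, b, hB, z0, z1, add_zero]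
  have e5 : β.deaB.d 3 = 0 := by rw [deaB_d, a, hB, z0, z1, add_zero]
  have e6 : β.dg.d 3 = 0 := by rw [dg_d, e2, e3, e4, e5]; ring
  have n : (fun i => (β.dn i).d 3) = fun _ => 0 := funext fun i => by
    rw [dn_d, a, b, z2, z3, add_zero]
  have T : (fun i => (β.dT i).d 3) = fun i => 2 * (β.xebb * β.xV i) := funext fun i => by
    rw [dT_d, e1, e2, e3, e6]
    change 2 * (β.xebb * β.xV i + β.xp i * 0) - 4 * (β.xeab * 0 + β.xq i * 0) +
      2 * (β.xeaa * 0 + β.xw i * 0) + (β.xg * 0 + β.C i * 0) = _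
    ring
  rw [dF_d, T, n, xU]
  simp only [dt]
  ring

theorem dF_4 : β.dF.d 4 = -4 * (β.k * (β.xeab * β.xU)) := by
  have a : (fun i => (β.da i).d 4) = fun _ => 0 := rfl
  have b : (fun i => (β.db i).d 4) = fun _ => 0 := rfl
  have hB : (fun i => (β.dB i).d 4) = fun _ => 0 := rfl
  have e1 : β.debb.d 4 = 0 := by rw [debb_d, b, z0, z1, add_zero]
  have e2 : β.deab.d 4 = 0 := by rw [deab_d, a, b, z0, z1, add_zero]
  have e3 : β.deaa.d 4 = 0 := by rw [deaa_d, a, z0, z1, add_zero]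
  have e4 : β.debB.d 4 = 0 := by rw [debB_d, b, hB, z0, z1, add_zero]
  have e5 : β.deaB.d 4 = 0 := by rw [deaB_d, a, hB, z0, z1, add_zero]
  have e6 : β.dg.d 4 = 0 := by rw [dg_d, e2, e3, e4, e5]; ring
  have n : (fun i => (β.dn i).d 4) = fun _ => 0 := funext fun i => by
    rw [dn_d, a, b, z2, z3, add_zero]
  have T : (fun i => (β.dT i).d 4) = fun i => -4 * (β.k * (β.xeab * β.xV i)) :=
    funext fun i => by
    rw [dT_d, e1, e2, e3, e6]
    change 2 * (β.xebb * 0 + β.xp i * 0) - 4 * (β.xeab * (β.s * (β.k * β.V i)) + β.xq i * 0) +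
      2 * (β.xeaa * 0 + β.xw i * 0) + (β.xg * 0 + β.C i * 0) = _
    simp only [xV, sm]
    ring
  rw [dF_d, T, n, xU]
  simp only [dt]
  ring

theorem dF_5 : β.dF.d 5 = 2 * (β.k * β.k * (β.xeaa * β.xU)) := by
  have a : (fun i => (β.da i).d 5) = fun _ => 0 := rfl
  have b : (fun i => (β.db i).d 5) = fun _ => 0 := rfl
  have hB : (fun i => (β.dB i).d 5) = fun _ => 0 := rfl
  have e1 : β.debb.d 5 = 0 := by rw [debb_d, b, z0, z1, add_zero]
  have e2 : β.deab.d 5 = 0 := by rw [deab_d, a, b, z0, z1, add_zero]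
  have e3 : β.deaa.d 5 = 0 := by rw [deaa_d, a, z0, z1, add_zero]
  have e4 : β.debB.d 5 = 0 := by rw [debB_d, b, hB, z0, z1, add_zero]
  have e5 : β.deaB.d 5 = 0 := by rw [deaB_d, a, hB, z0, z1, add_zero]
  have e6 : β.dg.d 5 = 0 := by rw [dg_d, e2, e3, e4, e5]; ring
  have n : (fun i => (β.dn i).d 5) = fun _ => 0 := funext fun i => by
    rw [dn_d, a, b, z2, z3, add_zero]
  have T : (fun i => (β.dT i).d 5) = fun i => 2 * (β.k * β.k * (β.xeaa * β.xV i)) :=
    funext fun i => by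
    rw [dT_d, e1, e2, e3, e6]
    change 2 * (β.xebb * 0 + β.xp i * 0) - 4 * (β.xeab * 0 + β.xq i * 0) +
      2 * (β.xeaa * (β.s * (β.k * β.k * β.V i)) + β.xw i * 0) + (β.xg * 0 + β.C i * 0) = _
    simp only [xV, sm]
    ring
  rw [dF_d, T, n, xU]
  simp only [dt]
  ring

/-! ### the first order coefficients -/

/-- `η(s V, b)` -/
def x1ab : W := eta β.xV β.xb
/-- `η(a, s V)` -/
def x1aa : W := eta β.xa β.xV
/-- `η(s V, B)` -/
def x1aB : W := eta β.xV β.B
def x1g : W := 2 * (β.x1aa * β.xebB) - β.xeab * β.x1aB - β.xeaB * β.x1ab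
def x1T (i : Fin 3) : W := 4 * (β.xebb * β.xVj i) - 4 * (β.xeab * β.xV2 i) -
  4 * (β.xq i * β.x1ab) + 4 * (β.xw i * β.x1aa) + β.C i * β.x1g

theorem dF_1 : β.dF.d 1 = dt β.x1T β.xn + dt β.xT (crs β.xV β.xb) := by
  have a : (fun i => (β.da i).d 1) = β.xV := rfl
  have b : (fun i => (β.db i).d 1) = fun _ => 0 := rfl
  have hB : (fun i => (β.dB i).d 1) = fun _ => 0 := rfl
  have e1 : β.debb.d 1 = 0 := by rw [debb_d, b, z0, z1, add_zero]
  have e2 : β.deab.d 1 = β.x1ab := by rw [deab_d, a, b, z1, zero_add, x1ab]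
  have e3 : β.deaa.d 1 = 2 * β.x1aa := by rw [deaa_d, a, x1aa]; simp only [eta]; ring
  have e4 : β.debB.d 1 = 0 := by rw [debB_d, b, hB, z0, z1, add_zero]
  have e5 : β.deaB.d 1 = β.x1aB := by rw [deaB_d, a, hB, z1, zero_add, x1aB]
  have e6 : β.dg.d 1 = β.x1g := by rw [dg_d, e2, e3, e4, e5, x1g]; ring
  have n : (fun i => (β.dn i).d 1) = crs β.xV β.xb := funext fun i => by
    rw [dn_d, a, b, z3, zero_add]
  have T : (fun i => (β.dT i).d 1) = β.x1T := funext fun i => by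
    rw [dT_d, e1, e2, e3, e6, x1T]
    change 2 * (β.xebb * (β.s * (2 * β.Vj i)) + β.xp i * 0) -
      4 * (β.xeab * β.xV2 i + β.xq i * β.x1ab) +
      2 * (β.xeaa * 0 + β.xw i * (2 * β.x1aa)) + (β.xg * 0 + β.C i * β.x1g) = _
    simp only [xVj, sm]
    ring
  rw [dF_d, T, n]

/-- `η(b, s V)` -/
def x2bb : W := eta β.xb β.xV
/-- `η(a, V)` -/
def x2aB : W := eta β.xa β.V
def x2g : W := 2 * (β.xeaa * β.x1aB) - β.xeab * β.x2aB - β.xeaB * β.x1aa
def x2T (i : Fin 3) : W := 4 * (β.xp i * β.x2bb) - 4 * (β.xeab * β.xVj i) -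
  4 * (β.xq i * β.x1aa) + 4 * (β.xeaa * β.xV2 i) + β.C i * β.x2g

theorem dF_2 : β.dF.d 2 = β.k * (dt β.x2T β.xn + dt β.xT (crs β.xa β.xV)) := by
  have a : (fun i => (β.da i).d 2) = fun _ => 0 := rfl
  have b : (fun i => (β.db i).d 2) = fun i => β.s * (β.k * β.V i) := rfl
  have hB : (fun i => (β.dB i).d 2) = fun i => β.k * β.V i := rfl
  have e1 : β.debb.d 2 = 2 * (β.k * β.x2bb) := by
    rw [debb_d, b, x2bb]; simp only [eta, xV, sm]; ring
  have e2 : β.deab.d 2 = β.k * β.x1aa := by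
    rw [deab_d, a, b, z0, add_zero, x1aa]; simp only [eta, xV, sm]; ring
  have e3 : β.deaa.d 2 = 0 := by rw [deaa_d, a, z0, z1, add_zero]
  have e4 : β.debB.d 2 = 2 * (β.k * β.x1aB) := by
    rw [debB_d, b, hB, x1aB]; simp only [eta, xV, xb, sm]; ring
  have e5 : β.deaB.d 2 = β.k * β.x2aB := by
    rw [deaB_d, a, hB, z0, add_zero, x2aB]; simp only [eta]; ring
  have e6 : β.dg.d 2 = β.k * β.x2g := by rw [dg_d, e2, e3, e4, e5, x2g]; ring
  have n : (fun i => (β.dn i).d 2) = fun i => β.k * crs β.xa β.xV i := funext fun i => by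
    rw [dn_d, a, b, z2, add_zero]
    fin_cases i <;> simp only [crs, xV, sm, Matrix.cons_val_zero, Matrix.cons_val_one,
      Matrix.cons_val, Fin.zero_eta, Fin.mk_one, Fin.reduceFinMk] <;> ring
  have T : (fun i => (β.dT i).d 2) = fun i => β.k * β.x2T i := funext fun i => by
    rw [dT_d, e1, e2, e3, e6, x2T]
    change 2 * (β.xebb * 0 + β.xp i * (2 * (β.k * β.x2bb))) -
      4 * (β.xeab * (β.s * (β.k * β.Vj i)) + β.xq i * (β.k * β.x1aa)) +
      2 * (β.xeaa * (β.s * (2 * (β.k * β.V2 i))) + β.xw i * 0) +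
      (β.xg * 0 + β.C i * (β.k * β.x2g)) = _
    simp only [xVj, xV2, sm]
    ring
  rw [dF_d, T, n]
  simp only [dt]
  ring

/-! ### the zero order coefficient -/

def x0n (i : Fin 3) : W := crs β.xa β.xV2 i + crs β.xVj β.xb i
def x0bb : W := eta β.xb β.xV2
def x0ab : W := eta β.xa β.xV2 + eta β.xVj β.xb
def x0aa : W := eta β.xa β.xVj
def x0bB : W := eta β.xV2 β.B
def x0aB : W := eta β.xa β.V2 + eta β.xVj β.B
def x0g : W := 2 * (β.xeaa * β.x0bB) + 2 * (β.xebB * β.x0aa) - β.xeab * β.x0aB -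
  β.xeaB * β.x0ab
def x0T (i : Fin 3) : W := 2 * (β.xebb * β.xVjj i) + 4 * (β.xp i * β.x0bb) -
  4 * (β.xeab * β.xVj2 i) - 4 * (β.xq i * β.x0ab) + 2 * (β.xeaa * β.xV22 i) +
  4 * (β.xw i * β.x0aa) + β.xg * β.V i + β.C i * β.x0g

theorem dF_0 : β.dF.d 0 = dt β.x0T β.xn + dt β.xT β.x0n := by
  have a : (fun i => (β.da i).d 0) = β.xVj := rfl
  have b : (fun i => (β.db i).d 0) = β.xV2 := rfl
  have hB : (fun i => (β.dB i).d 0) = β.V2 := rfl
  have e1 : β.debb.d 0 = 2 * β.x0bb := by rw [debb_d, b, x0bb]; simp only [eta]; ring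
  have e2 : β.deab.d 0 = β.x0ab := by rw [deab_d, a, b, x0ab]
  have e3 : β.deaa.d 0 = 2 * β.x0aa := by rw [deaa_d, a, x0aa]; simp only [eta]; ring
  have e4 : β.debB.d 0 = 2 * β.x0bB := by
    rw [debB_d, b, hB, x0bB]; simp only [eta, xV2, xb, sm]; ring
  have e5 : β.deaB.d 0 = β.x0aB := by rw [deaB_d, a, hB, x0aB]
  have e6 : β.dg.d 0 = β.x0g := by rw [dg_d, e2, e3, e4, e5, x0g]; ring
  have n : (fun i => (β.dn i).d 0) = β.x0n := funext fun i => by
    rw [dn_d, a, b, x0n]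
  have T : (fun i => (β.dT i).d 0) = β.x0T := funext fun i => by
    rw [dT_d, e1, e2, e3, e6, x0T]
    change 2 * (β.xebb * β.xVjj i + β.xp i * (2 * β.x0bb)) -
      4 * (β.xeab * β.xVj2 i + β.xq i * β.x0ab) +
      2 * (β.xeaa * β.xV22 i + β.xw i * (2 * β.x0aa)) +
      (β.xg * β.V i + β.C i * β.x0g) = _
    ring
  rw [dF_d, T, n]

end Bg

end Pool.MP_ce2c94_gt.D3S
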