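import Pool.Agent.H.MP_ce2c94_gt.h36.GK

set_option autoImplicit false

/-!
# Checks for the six coefficients of the linear part

For a background given by tables, the distance of the coefficients `dF.d j` to six tables.
-/

namespace Pool.MP_ce2c94_gt.GK

open Pool.Agent.H.MP_ce2c94_gt.h46 D3W D3 Pool.MP_ce2c94_gt.D3S

/-- parameters of the kernel arithmetic and target precision and box -/
def wrap (b W h I0 J0 k : ℕ) (f : Par → Bool) : Bool :=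
  Nat.ble ((I0 + J0) * 2 ^ (k + 1)) (2 ^ 20) && mkPar b W h I0 J0 k fun P => P.ok && f P

theorem wrap_sound {b W' h I0 J0 k : ℕ} {f : Par → Bool} (hc : wrap b W' h I0 J0 k f = true) :
    ∃ P : Par, P.Ok ∧ nu ^ (P.I0 + P.J0) ≤ 1 + 1 / 2 ^ P.k ∧ f P = true := by
  unfold wrap at hc
  rw [mkPar_eq, Bool.and_eq_true, Bool.and_eq_true, Nat.ble_eq] at hc
  obtain ⟨hnu, hok, hc⟩ := hc
  refine ⟨_, Par.ok_iff _ hok, ?_, hc⟩
  rw [par_k, par_I0, par_J0]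
  exact D3.nu_pow_le hnu

/-- the background given by tables -/
noncomputable def bgB (N : ℕ) (bs b0 b1 b2 v0 v1 v2 : Base) : Bg W :=
  bgOf N (baseJ bs).f (tabHat b0 b1 b2) (tabHat v0 v1 v2)

/-- check for the second order coefficients -/
def chk345 (P : Par) (pt I J N : ℕ) (bs b0 b1 b2 v0 v1 v2 g3 g4 g5 : Base)
    (n3 q3 n4 q4 n5 q5 : ℕ) : Bool :=
  ldK P pt I J bs 0 0 fun s => vec1 P pt I J N b0 b1 b2 fun _ a b =>
  linK P pt I J [(1, s, a)] fun a => linK P pt I J [(1, s, b)] fun b =>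
  crsK P pt I J a b fun n => etaK P pt I J b b fun ebb => etaK P pt I J a b fun eab =>
  etaK P pt I J a a fun eaa => ldK P pt I J v0 0 0 fun x => ldK P pt I J v1 0 0 fun y =>
  ldK P pt I J v2 0 0 fun z => linK P pt I J [(1, s, ⟨x, y, z⟩)] fun v =>
  dtK P pt I J v n fun U => finK P [(2, ebb, U)] g3 n3 q3 &&
  finK P [(Int.negSucc (4 * N - 1), eab, U)] g4 n4 q4 && finK P [((2 * (N * N) : ℕ), eaa, U)] g5 n5 q5

theorem chk345_sound {P : Par} (hn : nu ^ (P.I0 + P.J0) ≤ 1 + 1 / 2 ^ P.k) (hP : P.Ok)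
    {pt I J N : ℕ} (hN : 0 < N) {bs b0 b1 b2 v0 v1 v2 g3 g4 g5 : Base} {n3 q3 n4 q4 n5 q5 : ℕ}
    (h : chk345 P pt I J N bs b0 b1 b2 v0 v1 v2 g3 g4 g5 n3 q3 n4 q4 n5 q5 = true) :
    ‖(bgB N bs b0 b1 b2 v0 v1 v2).dF.d 3 - baseW g3 0 0‖ ≤ (n3 : ℝ) / 2 ^ q3 ∧
    ‖(bgB N bs b0 b1 b2 v0 v1 v2).dF.d 4 - baseW g4 0 0‖ ≤ (n4 : ℝ) / 2 ^ q4 ∧
    ‖(bgB N bs b0 b1 b2 v0 v1 v2).dF.d 5 - baseW g5 0 0‖ ≤ (n5 : ℝ) / 2 ^ q5 := by
  obtain ⟨s, hs, h⟩ := ldK_sound hn hP h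
  obtain ⟨_, a', b', _, ha', hb', h⟩ := vec1_sound hn hP h
  obtain ⟨a, ha, h⟩ := smV_sound hP hs ha' h
  obtain ⟨b, hb, h⟩ := smV_sound hP hs hb' h
  obtain ⟨n, hn', h⟩ := crsK_sound hP ha hb h
  obtain ⟨ebb, hebb, h⟩ := etaK_sound hP hb hb h
  obtain ⟨eab, heab, h⟩ := etaK_sound hP ha hb h
  obtain ⟨eaa, heaa, h⟩ := etaK_sound hP ha ha h
  obtain ⟨x, hx, h⟩ := ldK_sound hn hP h
  obtain ⟨y, hy, h⟩ := ldK_sound hn hP h
  obtain ⟨z, hz, h⟩ := ldK_sound hn hP h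
  obtain ⟨v, hv, h⟩ := smV_sound (v := ![(tabHat v0 v1 v2).P.f, (tabHat v0 v1 v2).Q.f,
    (tabHat v0 v1 v2).Z.f]) (V := ⟨x, y, z⟩) hP hs ⟨hx, hy, hz⟩ h
  obtain ⟨U, hU, h⟩ := dtK_sound hP hv hn' h
  rw [Bool.and_eq_true, Bool.and_eq_true] at h
  obtain ⟨⟨h3, h4⟩, h5⟩ := h
  have f3 := finK_sound hn hP (.cons hebb hU .nil) h3
  have f4 := finK_sound hn hP (.cons heab hU .nil) h4
  have f5 := finK_sound hn hP (.cons heaa hU .nil) h5
  rw [Bg.dF_3, Bg.dF_4, Bg.dF_5]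
  refine ⟨?_, ?_, ?_⟩
  · refine le_of_eq_of_le ?_ f3
    congr 2
    rw [lval, lval, add_zero, zsmul_eq_mul]
    push_cast
    rfl
  · refine le_of_eq_of_le ?_ f4
    congr 2
    rw [lval, lval, add_zero, zsmul_eq_mul]
    have e : (Int.negSucc (4 * N - 1) : ℤ) = -(4 * N : ℤ) := by
      rw [Int.negSucc_eq]
      omega
    rw [e]
    push_cast
    change -4 * ((N : W) * _) = _
    rw [← mul_assoc, neg_mul, neg_mul, neg_mul]
    rfl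
  · refine le_of_eq_of_le ?_ f5
    congr 2
    rw [lval, lval, add_zero, zsmul_eq_mul]
    push_cast
    change 2 * ((N : W) * (N : W) * _) = _
    rw [← mul_assoc]
    rfl

/-! ### the shared values -/

/-- the cells of the values -/
structure VB where
  s : Cell
  C : VC
  B : VC
  a : VC
  b : VC
  p : VC
  q : VC
  w : VC
  n : VC
  T : VC
  ebb : Cell
  eab : Cell
  eaa : Cell
  ebB : Cell
  eaB : Cell
  g : Cell

/-- computes the values -/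
def vals (P : Par) (pt I J N : ℕ) (bs b0 b1 b2 : Base) (k : VB → Bool) : Bool :=
  ldK P pt I J bs 0 0 fun s => vec2 P pt I J N b0 b1 b2 fun C a B p q w =>
  linK P pt I J [(1, s, a)] fun a => linK P pt I J [(1, s, B)] fun b =>
  linK P pt I J [(1, s, p)] fun p => linK P pt I J [(1, s, q)] fun q =>
  linK P pt I J [(1, s, w)] fun w =>
  crsK P pt I J a b fun n => etaK P pt I J b b fun ebb => etaK P pt I J a b fun eab =>
  etaK P pt I J a a fun eaa => etaK P pt I J b B fun ebB => etaK P pt I J a B fun eaB =>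
  dotK P pt I J [(1, eaa, ebB), (-1, eab, eaB)] fun g =>
  linK P pt I J [(2, ebb, p), (-4, eab, q), (2, eaa, w), (1, g, C)] fun T =>
  k ⟨s, C, B, a, b, p, q, w, n, T, ebb, eab, eaa, ebB, eaB, g⟩

/-- enclosure of the values -/
structure EncB {P : Par} (A : Alg P W) (β : Bg W) (X : VB) : Prop where
  s : Enc A β.s X.s
  C : EncV A β.C X.C
  B : EncV A β.B X.B
  a : EncV A β.xa X.a
  b : EncV A β.xb X.b
  p : EncV A β.xp X.p
  q : EncV A β.xq X.q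
  w : EncV A β.xw X.w
  n : EncV A β.xn X.n
  T : EncV A β.xT X.T
  ebb : Enc A β.xebb X.ebb
  eab : Enc A β.xeab X.eab
  eaa : Enc A β.xeaa X.eaa
  ebB : Enc A β.xebB X.ebB
  eaB : Enc A β.xeaB X.eaB
  g : Enc A β.xg X.g

theorem xg_eq (β : Bg W) :
    β.xg = lval [(1, β.xeaa, β.xebB), (-1, β.xeab, β.xeaB)] := by
  simp only [Bg.xg, lval, one_smul, neg_smul]
  ring

theorem xT_eq (β : Bg W) (i : Fin 3) : β.xT i = lval (cmp i [(2, β.xebb, β.xp),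
    (-4, β.xeab, β.xq), (2, β.xeaa, β.xw), (1, β.xg, β.C)]) := by
  simp only [Bg.xT, lval, cmp, List.map, zsmul_eq_mul]
  push_cast
  ring

theorem vals_sound {P : Par} (hn : nu ^ (P.I0 + P.J0) ≤ 1 + 1 / 2 ^ P.k) (hP : P.Ok)
    {pt I J N : ℕ} {bs b0 b1 b2 : Base} (v0 v1 v2 : Base) {k : VB → Bool}
    (h : vals P pt I J N bs b0 b1 b2 k = true) :
    ∃ X, EncB (algW P hn) (bgB N bs b0 b1 b2 v0 v1 v2) X ∧ k X = true := by
  obtain ⟨s, hs, h⟩ := ldK_sound hn hP h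
  obtain ⟨C, a', B, p', q', w', hC, ha', hB, hp', hq', hw', h⟩ := vec2_sound hn hP h
  obtain ⟨a, ha, h⟩ := smV_sound hP hs ha' h
  obtain ⟨b, hb, h⟩ := smV_sound hP hs hB h
  obtain ⟨p, hp, h⟩ := smV_sound hP hs hp' h
  obtain ⟨q, hq, h⟩ := smV_sound hP hs hq' h
  obtain ⟨w, hw, h⟩ := smV_sound hP hs hw' h
  obtain ⟨n, hnn, h⟩ := crsK_sound hP ha hb h
  obtain ⟨ebb, hebb, h⟩ := etaK_sound hP hb hb h
  obtain ⟨eab, heab, h⟩ := etaK_sound hP ha hb h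
  obtain ⟨eaa, heaa, h⟩ := etaK_sound hP ha ha h
  obtain ⟨ebB, hebB, h⟩ := etaK_sound hP hb hB h
  obtain ⟨eaB, heaB, h⟩ := etaK_sound hP ha hB h
  obtain ⟨g, hg, h⟩ := dotK_sound hP (.cons heaa hebB (.cons heab heaB .nil))
    (xg_eq (bgB N bs b0 b1 b2 v0 v1 v2)) h
  obtain ⟨T, hT, h⟩ := linK_sound hP (.cons hebb hp (.cons heab hq (.cons heaa hw
    (.cons hg hC .nil)))) (xT_eq (bgB N bs b0 b1 b2 v0 v1 v2)) h
  exact ⟨⟨s, C, B, a, b, p, q, w, n, T, ebb, eab, eaa, ebB, eaB, g⟩,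
    ⟨hs, hC, hB, ha, hb, hp, hq, hw, hnn, hT, hebb, heab, heaa, hebB, heaB, hg⟩, h⟩

/-! ### lists for scalar products -/

/-- a list for the scalar product -/
def dl (n : ℤ) (u v : VC) : List (ℤ × Cell × Cell) := [(n, u.x, v.x), (n, u.y, v.y), (n, u.z, v.z)]

theorem RL.app {P : Par} {A : Alg P W} {u u' : List (ℤ × W × W)}
    {c c' : List (ℤ × Cell × Cell)} (h : RL A u c) (h' : RL A u' c') :
    RL A (u ++ u') (c ++ c') := List.rel_append h h'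

theorem lval_append (u v : List (ℤ × W × W)) : lval (u ++ v) = lval u + lval v := by
  induction u with
  | nil => rw [List.nil_append, lval, zero_add]
  | cons a u ih =>
    obtain ⟨n, x, y⟩ := a
    rw [List.cons_append, lval, lval, ih, add_assoc]

/-- the values of `dl` -/
noncomputable def dw (n : ℤ) (u v : Fin 3 → W) : List (ℤ × W × W) :=
  [(n, u 0, v 0), (n, u 1, v 1), (n, u 2, v 2)]

theorem RL.dl {P : Par} {A : Alg P W} {u v : Fin 3 → W} {U V : VC} (n : ℤ) (hu : EncV A u U)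
    (hv : EncV A v V) : RL A (dw n u v) (dl n U V) :=
  .cons hu.x hv.x (.cons hu.y hv.y (.cons hu.z hv.z .nil))

theorem lval_dw (n : ℤ) (u v : Fin 3 → W) : lval (dw n u v) = n • dt u v := by
  simp only [dw, lval, dt, add_zero, smul_add, add_assoc]

/-! ### first order coefficients -/

/-- check for the coefficient of `Dj φ` -/
def chk1 (P : Par) (pt I J N : ℕ) (bs b0 b1 b2 v0 v1 v2 G : Base) (nn qq : ℕ) : Bool :=
  vals P pt I J N bs b0 b1 b2 fun X => vec1 P pt I J N v0 v1 v2 fun v vj v2 =>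
  linK P pt I J [(1, X.s, v)] fun v => linK P pt I J [(1, X.s, vj)] fun vj =>
  linK P pt I J [(1, X.s, v2)] fun v2 =>
  etaK P pt I J v X.b fun ab => etaK P pt I J X.a v fun aa => etaK P pt I J v X.B fun aB =>
  dotK P pt I J [(2, aa, X.ebB), (-1, X.eab, aB), (-1, X.eaB, ab)] fun g =>
  linK P pt I J [(4, X.ebb, vj), (-4, X.eab, v2), (-4, ab, X.q), (4, aa, X.w), (1, g, X.C)]
    fun T => crsK P pt I J v X.b fun n => finK P (dl 1 T X.n ++ dl 1 X.T n) G nn qq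

theorem x1g_eq (β : Bg W) : β.x1g =
    lval [(2, β.x1aa, β.xebB), (-1, β.xeab, β.x1aB), (-1, β.xeaB, β.x1ab)] := by
  simp only [Bg.x1g, lval, zsmul_eq_mul]
  push_cast
  ring

theorem x1T_eq (β : Bg W) (i : Fin 3) : β.x1T i = lval (cmp i [(4, β.xebb, β.xVj),
    (-4, β.xeab, β.xV2), (-4, β.x1ab, β.xq), (4, β.x1aa, β.xw), (1, β.x1g, β.C)]) := by
  simp only [Bg.x1T, lval, cmp, List.map, zsmul_eq_mul]
  push_cast
  ring

theorem chk1_sound {P : Par} (hn : nu ^ (P.I0 + P.J0) ≤ 1 + 1 / 2 ^ P.k) (hP : P.Ok)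
    {pt I J N : ℕ} {bs b0 b1 b2 d0 d1 d2 G : Base} {nn qq : ℕ}
    (h : chk1 P pt I J N bs b0 b1 b2 d0 d1 d2 G nn qq = true) :
    ‖(bgB N bs b0 b1 b2 d0 d1 d2).dF.d 1 - baseW G 0 0‖ ≤ (nn : ℝ) / 2 ^ qq := by
  obtain ⟨X, hX, h⟩ := vals_sound hn hP d0 d1 d2 h
  obtain ⟨v', vj', v2', hv', hvj', hv2', h⟩ := vec1_sound hn hP h
  obtain ⟨v, hv, h⟩ := smV_sound hP hX.s hv' h
  obtain ⟨vj, hvj, h⟩ := smV_sound hP hX.s hvj' h
  obtain ⟨v2, hv2, h⟩ := smV_sound hP hX.s hv2' h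
  obtain ⟨ab, hab, h⟩ := etaK_sound hP hv hX.b h
  obtain ⟨aa, haa, h⟩ := etaK_sound hP hX.a hv h
  obtain ⟨aB, haB, h⟩ := etaK_sound hP hv hX.B h
  obtain ⟨g, hg, h⟩ := dotK_sound hP (.cons haa hX.ebB (.cons hX.eab haB (.cons hX.eaB hab
    .nil))) (x1g_eq (bgB N bs b0 b1 b2 d0 d1 d2)) h
  obtain ⟨T, hT, h⟩ := linK_sound hP (.cons hX.ebb hvj (.cons hX.eab hv2 (.cons hab hX.q
    (.cons haa hX.w (.cons hg hX.C .nil))))) (x1T_eq (bgB N bs b0 b1 b2 d0 d1 d2)) h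
  obtain ⟨n, hnn, h⟩ := crsK_sound hP hv hX.b h
  have f := finK_sound hn hP ((RL.dl 1 hT hX.n).app (RL.dl 1 hX.T hnn)) h
  rw [lval_append, lval_dw, lval_dw, one_smul, one_smul] at f
  rw [Bg.dF_1]
  exact f

/-- check for the coefficient of `Dm φ` -/
def chk2 (P : Par) (pt I J N : ℕ) (bs b0 b1 b2 v0 v1 v2 G : Base) (nn qq : ℕ) : Bool :=
  vals P pt I J N bs b0 b1 b2 fun X => vec1 P pt I J N v0 v1 v2 fun V vj v2 =>
  linK P pt I J [(1, X.s, V)] fun v => linK P pt I J [(1, X.s, vj)] fun vj =>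
  linK P pt I J [(1, X.s, v2)] fun v2 =>
  etaK P pt I J X.b v fun bb => etaK P pt I J X.a v fun aa => etaK P pt I J v X.B fun bB =>
  etaK P pt I J X.a V fun aB =>
  dotK P pt I J [(2, X.eaa, bB), (-1, X.eab, aB), (-1, X.eaB, aa)] fun g =>
  linK P pt I J [(4, bb, X.p), (-4, X.eab, vj), (-4, aa, X.q), (4, X.eaa, v2), (1, g, X.C)]
    fun T => crsK P pt I J X.a v fun n => finK P (dl N T X.n ++ dl N X.T n) G nn qq

theorem x2g_eq (β : Bg W) : β.x2g =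
    lval [(2, β.xeaa, β.x1aB), (-1, β.xeab, β.x2aB), (-1, β.xeaB, β.x1aa)] := by
  simp only [Bg.x2g, lval, zsmul_eq_mul]
  push_cast
  ring

theorem x2T_eq (β : Bg W) (i : Fin 3) : β.x2T i = lval (cmp i [(4, β.x2bb, β.xp),
    (-4, β.xeab, β.xVj), (-4, β.x1aa, β.xq), (4, β.xeaa, β.xV2), (1, β.x2g, β.C)]) := by
  simp only [Bg.x2T, lval, cmp, List.map, zsmul_eq_mul]
  push_cast
  ring

theorem chk2_sound {P : Par} (hn : nu ^ (P.I0 + P.J0) ≤ 1 + 1 / 2 ^ P.k) (hP : P.Ok)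
    {pt I J N : ℕ} {bs b0 b1 b2 d0 d1 d2 G : Base} {nn qq : ℕ}
    (h : chk2 P pt I J N bs b0 b1 b2 d0 d1 d2 G nn qq = true) :
    ‖(bgB N bs b0 b1 b2 d0 d1 d2).dF.d 2 - baseW G 0 0‖ ≤ (nn : ℝ) / 2 ^ qq := by
  obtain ⟨X, hX, h⟩ := vals_sound hn hP d0 d1 d2 h
  obtain ⟨v', vj', v2', hv', hvj', hv2', h⟩ := vec1_sound hn hP h
  obtain ⟨v, hv, h⟩ := smV_sound hP hX.s hv' h
  obtain ⟨vj, hvj, h⟩ := smV_sound hP hX.s hvj' h
  obtain ⟨v2, hv2, h⟩ := smV_sound hP hX.s hv2' h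
  obtain ⟨bb, hbb, h⟩ := etaK_sound hP hX.b hv h
  obtain ⟨aa, haa, h⟩ := etaK_sound hP hX.a hv h
  obtain ⟨bB, hbB, h⟩ := etaK_sound hP hv hX.B h
  obtain ⟨aB, haB, h⟩ := etaK_sound hP hX.a hv' h
  obtain ⟨g, hg, h⟩ := dotK_sound hP (.cons hX.eaa hbB (.cons hX.eab haB (.cons hX.eaB haa
    .nil))) (x2g_eq (bgB N bs b0 b1 b2 d0 d1 d2)) h
  obtain ⟨T, hT, h⟩ := linK_sound hP (.cons hbb hX.p (.cons hX.eab hvj (.cons haa hX.q
    (.cons hX.eaa hv2 (.cons hg hX.C .nil))))) (x2T_eq (bgB N bs b0 b1 b2 d0 d1 d2)) h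
  obtain ⟨n, hnn, h⟩ := crsK_sound hP hX.a hv h
  have f := finK_sound hn hP ((RL.dl N hT hX.n).app (RL.dl N hX.T hnn)) h
  rw [lval_append, lval_dw, lval_dw, ← smul_add, smul_nat] at f
  rw [Bg.dF_2]
  exact f

/-! ### the zero order coefficient -/

/-- check for the coefficient of `φ` -/
def chk0 (P : Par) (pt I J N : ℕ) (bs b0 b1 b2 v0 v1 v2 G : Base) (nn qq : ℕ) : Bool :=
  vals P pt I J N bs b0 b1 b2 fun X => vec2 P pt I J N v0 v1 v2 fun V vj V2 vjj vj2 v22 =>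
  linK P pt I J [(1, X.s, vj)] fun vj => linK P pt I J [(1, X.s, V2)] fun v2 =>
  linK P pt I J [(1, X.s, vjj)] fun vjj => linK P pt I J [(1, X.s, vj2)] fun vj2 =>
  linK P pt I J [(1, X.s, v22)] fun v22 =>
  crs2K P pt I J X.a v2 vj X.b fun n => etaK P pt I J X.b v2 fun bb =>
  eta2K P pt I J X.a v2 vj X.b fun ab => etaK P pt I J X.a vj fun aa =>
  etaK P pt I J v2 X.B fun bB => eta2K P pt I J X.a V2 vj X.B fun aB =>
  dotK P pt I J [(2, X.eaa, bB), (2, X.ebB, aa), (-1, X.eab, aB), (-1, X.eaB, ab)] fun g =>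
  linK P pt I J [(2, X.ebb, vjj), (4, bb, X.p), (-4, X.eab, vj2), (-4, ab, X.q),
    (2, X.eaa, v22), (4, aa, X.w), (1, X.g, V), (1, g, X.C)] fun T =>
  finK P (dl 1 T X.n ++ dl 1 X.T n) G nn qq

theorem x0g_eq (β : Bg W) : β.x0g = lval [(2, β.xeaa, β.x0bB), (2, β.xebB, β.x0aa),
    (-1, β.xeab, β.x0aB), (-1, β.xeaB, β.x0ab)] := by
  simp only [Bg.x0g, lval, zsmul_eq_mul]
  push_cast
  ring

theorem x0T_eq (β : Bg W) (i : Fin 3) : β.x0T i = lval (cmp i [(2, β.xebb, β.xVjj),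
    (4, β.x0bb, β.xp), (-4, β.xeab, β.xVj2), (-4, β.x0ab, β.xq), (2, β.xeaa, β.xV22),
    (4, β.x0aa, β.xw), (1, β.xg, β.V), (1, β.x0g, β.C)]) := by
  simp only [Bg.x0T, lval, cmp, List.map, zsmul_eq_mul]
  push_cast
  ring

theorem chk0_sound {P : Par} (hn : nu ^ (P.I0 + P.J0) ≤ 1 + 1 / 2 ^ P.k) (hP : P.Ok)
    {pt I J N : ℕ} {bs b0 b1 b2 d0 d1 d2 G : Base} {nn qq : ℕ}
    (h : chk0 P pt I J N bs b0 b1 b2 d0 d1 d2 G nn qq = true) :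
    ‖(bgB N bs b0 b1 b2 d0 d1 d2).dF.d 0 - baseW G 0 0‖ ≤ (nn : ℝ) / 2 ^ qq := by
  obtain ⟨X, hX, h⟩ := vals_sound hn hP d0 d1 d2 h
  obtain ⟨V, vj', V2, vjj', vj2', v22', hV, hvj', hV2, hvjj', hvj2', hv22', h⟩ :=
    vec2_sound hn hP h
  obtain ⟨vj, hvj, h⟩ := smV_sound hP hX.s hvj' h
  obtain ⟨v2, hv2, h⟩ := smV_sound hP hX.s hV2 h
  obtain ⟨vjj, hvjj, h⟩ := smV_sound hP hX.s hvjj' h
  obtain ⟨vj2, hvj2, h⟩ := smV_sound hP hX.s hvj2' h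
  obtain ⟨v22, hv22, h⟩ := smV_sound hP hX.s hv22' h
  obtain ⟨n, hnn, h⟩ := crs2K_sound hP hX.a hv2 hvj hX.b h
  obtain ⟨bb, hbb, h⟩ := etaK_sound hP hX.b hv2 h
  obtain ⟨ab, hab, h⟩ := eta2K_sound hP hX.a hv2 hvj hX.b h
  obtain ⟨aa, haa, h⟩ := etaK_sound hP hX.a hvj h
  obtain ⟨bB, hbB, h⟩ := etaK_sound hP hv2 hX.B h
  obtain ⟨aB, haB, h⟩ := eta2K_sound hP hX.a hV2 hvj hX.B h
  obtain ⟨g, hg, h⟩ := dotK_sound hP (.cons hX.eaa hbB (.cons hX.ebB haa (.cons hX.eab haB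
    (.cons hX.eaB hab .nil)))) (x0g_eq (bgB N bs b0 b1 b2 d0 d1 d2)) h
  obtain ⟨T, hT, h⟩ := linK_sound hP (.cons hX.ebb hvjj (.cons hbb hX.p (.cons hX.eab hvj2
    (.cons hab hX.q (.cons hX.eaa hv22 (.cons haa hX.w (.cons hX.g hV (.cons hg hX.C
    .nil)))))))) (x0T_eq (bgB N bs b0 b1 b2 d0 d1 d2)) h
  have f := finK_sound hn hP ((RL.dl 1 hT hX.n).app (RL.dl 1 hX.T hnn)) h
  rw [lval_append, lval_dw, lval_dw, one_smul, one_smul] at f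
  rw [Bg.dF_0]
  exact f

end Pool.MP_ce2c94_gt.GK
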