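import Pool.Agent.H.MP_ce2c94_gt.D3.ColTab
import Pool.Agent.H.MP_ce2c94_gt.D3Spec
import Pool.Agent.H.MP_ce2c94_gt.h36.DF
import Pool.Agent.H.MP_ce2c94_gt.h88.FCell

set_option autoImplicit false

/-!
# Sums of products of cells and vectors of cells

Operations in continuation passing style: a sum of products is formed exactly and then rounded once.
-/

namespace Pool.MP_ce2c94_gt.GK

open Pool.Agent.H.MP_ce2c94_gt.h46 D3W D3 Pool.MP_ce2c94_gt.D3S Pool.MP_ce2c94_gt.h88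

/-! ### kernel functions -/

/-- rounding to precision `pt` and box `I, J` -/
def nrK (P : Par) (pt I J : ℕ) (x : Cell) (k : Cell → Bool) : Bool :=
  match rndF P (x.p - pt) I J x with
  | some z => forceC z k
  | none => false

/-- table, a priori norm -/
def tabK1 (P : Par) (B : Base) (a c : ℕ) (k : Cell → Bool) : Bool :=
  match tabC P B.w a c B.I B.J B.ε B.δ B.p B.N with
  | some C => k C
  | none => false

/-- exact norm -/
def nmK (P : Par) (x : Cell) (k : Cell → Bool) : Bool :=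
  match normF P x with
  | some y => forceC y k
  | none => false

/-- load a table: lift or round to precision `pt` and box `I, J` -/
def ldK (P : Par) (pt I J : ℕ) (B : Base) (a c : ℕ) (k : Cell → Bool) : Bool :=
  tabK1 P B a c fun x => match Nat.ble x.p pt with
    | true => nmK P x fun x => liftK P pt I J x k
    | false => nrK P pt I J x k

/-- the difference of two integers -/
def subI (a b : ℤ) : ℤ :=
  match a, b with
  | .ofNat m, .ofNat n => subZ m n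
  | .ofNat m, .negSucc n => .ofNat (Nat.add m (Nat.succ n))
  | .negSucc m, .ofNat n => .negSucc (Nat.add m n)
  | .negSucc m, .negSucc n => subZ n m

/-- sum, no test -/
def addE' (x y : Cell) : Cell := ⟨addZ x.z y.z, x.I, x.J, x.s + y.s, x.e + y.e, x.p⟩

/-- difference, no test -/
def subE' (x y : Cell) : Cell := ⟨subI x.z y.z, x.I, x.J, x.s + y.s, x.e + y.e, x.p⟩

/-- positive integer multiple -/
def smulN (n : ℕ) (x : Cell) : Cell :=
  match Nat.beq n 1 with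
  | true => x
  | false => smulC n x

/-- add products to `a` -/
def lcGo (P : Par) : List (ℤ × Cell × Cell) → Cell → (Cell → Bool) → Bool
  | [], a, k => k a
  | (.ofNat n, x, y) :: l, a, k =>
      same a (mulE (smulN n x) y) && lcGo P l (addE' a (mulE (smulN n x) y)) k
  | (.negSucc n, x, y) :: l, a, k =>
      same a (mulE (smulN (Nat.succ n) x) y) && lcGo P l (subE' a (mulE (smulN (Nat.succ n) x) y)) k

/-- sum of products, exact -/
def dotU (P : Par) (l : List (ℤ × Cell × Cell)) (k : Cell → Bool) : Bool :=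
  match l with
  | (.ofNat n, x, y) :: l => Nat.ble (x.I + y.I) P.I0 && Nat.ble (x.J + y.J) P.J0 &&
      lcGo P l (mulE (smulN n x) y) k
  | (.negSucc n, x, y) :: l => Nat.ble (x.I + y.I) P.I0 && Nat.ble (x.J + y.J) P.J0 &&
      lcGo P l (negC (mulE (smulN (Nat.succ n) x) y)) k
  | [] => false

/-- sum of products, rounded -/
def dotK (P : Par) (pt I J : ℕ) (l : List (ℤ × Cell × Cell)) (k : Cell → Bool) : Bool :=
  dotU P l fun x => nrK P pt I J x k

/-- three cells -/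
structure VC where
  x : Cell
  y : Cell
  z : Cell

/-- sum of scalar multiples of vectors, rounded -/
def linK (P : Par) (pt I J : ℕ) (l : List (ℤ × Cell × VC)) (k : VC → Bool) : Bool :=
  dotK P pt I J (l.map fun t => (t.1, t.2.1, t.2.2.x)) fun x =>
  dotK P pt I J (l.map fun t => (t.1, t.2.1, t.2.2.y)) fun y =>
  dotK P pt I J (l.map fun t => (t.1, t.2.1, t.2.2.z)) fun z => k ⟨x, y, z⟩

/-- vector product, rounded -/
def crsK (P : Par) (pt I J : ℕ) (u v : VC) (k : VC → Bool) : Bool :=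
  dotK P pt I J [(1, u.y, v.z), (-1, u.z, v.y)] fun x =>
  dotK P pt I J [(1, u.z, v.x), (-1, u.x, v.z)] fun y =>
  dotK P pt I J [(1, u.x, v.y), (-1, u.y, v.x)] fun z => k ⟨x, y, z⟩

/-- sum of two vector products, rounded -/
def crs2K (P : Par) (pt I J : ℕ) (u v u' v' : VC) (k : VC → Bool) : Bool :=
  dotK P pt I J [(1, u.y, v.z), (-1, u.z, v.y), (1, u'.y, v'.z), (-1, u'.z, v'.y)] fun x =>
  dotK P pt I J [(1, u.z, v.x), (-1, u.x, v.z), (1, u'.z, v'.x), (-1, u'.x, v'.z)] fun y =>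
  dotK P pt I J [(1, u.x, v.y), (-1, u.y, v.x), (1, u'.x, v'.y), (-1, u'.y, v'.x)] fun z =>
  k ⟨x, y, z⟩

/-- `eta`, rounded -/
def etaK (P : Par) (pt I J : ℕ) (u v : VC) (k : Cell → Bool) : Bool :=
  dotK P pt I J [(1, u.x, v.x), (-1, u.y, v.y), (-1, u.z, v.z)] k

/-- sum of two `eta`, rounded -/
def eta2K (P : Par) (pt I J : ℕ) (u v u' v' : VC) (k : Cell → Bool) : Bool :=
  dotK P pt I J [(1, u.x, v.x), (-1, u.y, v.y), (-1, u.z, v.z),
    (1, u'.x, v'.x), (-1, u'.y, v'.y), (-1, u'.z, v'.z)] k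

/-- `dt`, rounded -/
def dtK (P : Par) (pt I J : ℕ) (u v : VC) (k : Cell → Bool) : Bool :=
  dotK P pt I J [(1, u.x, v.x), (1, u.y, v.y), (1, u.z, v.z)] k

/-- norm at most `n / 2^q` -/
def nleK (P : Par) (x : Cell) (n q : ℕ) : Bool :=
  match normF P x with
  | some C => Nat.ble ((C.s + C.e) * 2 ^ q) (n * 2 ^ C.p)
  | none => false

/-- the norm of a sum of products minus a table is at most `n / 2^q` -/
def finK (P : Par) (l : List (ℤ × Cell × Cell)) (G : Base) (n q : ℕ) : Bool :=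
  dotU P l fun x => tabK1 P G 0 0 fun g => nmK P g fun g => liftK P x.p x.I x.J g fun g =>
  same x g && nleK P (subE' x g) n q

/-- value and first derivatives -/
def ld1 (P : Par) (pt I J : ℕ) (B : Base) (k : Cell → Cell → Cell → Bool) : Bool :=
  ldK P pt I J B 0 0 fun f => ldK P pt I J B 1 0 fun u => ldK P pt I J B 0 1 fun t => k f u t

/-- second derivatives -/
def ld2 (P : Par) (pt I J : ℕ) (B : Base) (k : Cell → Cell → Cell → Bool) : Bool :=
  ldK P pt I J B 2 0 fun f => ldK P pt I J B 1 1 fun u => ldK P pt I J B 0 2 fun t => k f u t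

/-- `n x + y` -/
def lcC (n : ℤ) (x y : Cell) (k : Cell → Bool) : Bool :=
  same x y && forceC (addE (smulC n x) y) k

/-- `n x` -/
def smK (n : ℤ) (x : Cell) (k : Cell → Bool) : Bool := forceC (smulC n x) k

/-- the vectors `C, Dj C, D2 C` from three tables -/
def vec1 (P : Par) (pt I J : ℕ) (N : ℤ) (b0 b1 b2 : Base) (k : VC → VC → VC → Bool) : Bool :=
  ld1 P pt I J b0 fun f0 u0 t0 => ld1 P pt I J b1 fun f1 u1 t1 => ld1 P pt I J b2 fun f2 u2 t2 =>
  lcC N t0 f1 fun v0 => lcC N t1 f0 fun v1 => smK N t2 fun v2 =>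
  k ⟨f0, f1, f2⟩ ⟨u0, u1, u2⟩ ⟨v0, v1, v2⟩

/-- all the vectors from three tables -/
def vec2 (P : Par) (pt I J : ℕ) (N : ℤ) (b0 b1 b2 : Base)
    (k : VC → VC → VC → VC → VC → VC → Bool) : Bool :=
  ld1 P pt I J b0 fun f0 u0 t0 => ld1 P pt I J b1 fun f1 u1 t1 => ld1 P pt I J b2 fun f2 u2 t2 =>
  ld2 P pt I J b0 fun uu0 ut0 tt0 => ld2 P pt I J b1 fun uu1 ut1 tt1 =>
  ld2 P pt I J b2 fun uu2 ut2 tt2 =>
  lcC N t0 f1 fun v0 => lcC N t1 f0 fun v1 => smK N t2 fun v2 =>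
  lcC N ut0 u1 fun q0 => lcC N ut1 u0 fun q1 => smK N ut2 fun q2 =>
  lcC N tt0 t1 fun w0 => lcC N w0 v1 fun w0 =>
  lcC N tt1 t0 fun w1 => lcC N w1 v0 fun w1 => smK (N * N) tt2 fun w2 =>
  k ⟨f0, f1, f2⟩ ⟨u0, u1, u2⟩ ⟨v0, v1, v2⟩ ⟨uu0, uu1, uu2⟩ ⟨q0, q1, q2⟩ ⟨w0, w1, w2⟩

/-! ### soundness -/

section

variable {P : Par} {A : Alg P W}

theorem nrK_sound (hP : P.Ok) {pt I J : ℕ} {x : W} {X : Cell} (hx : Enc A x X)
    {k : Cell → Bool} (h : nrK P pt I J X k = true) : ∃ C, Enc A x C ∧ k C = true := by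
  unfold nrK at h
  split at h
  · rename_i z hz
    rw [forceC_eq] at h
    exact ⟨z, rndF_sound hP hx hz, h⟩
  · exact absurd h (by simp)

theorem nmK_sound (hP : P.Ok) {x : W} {X : Cell} (hx : Enc A x X)
    {k : Cell → Bool} (h : nmK P X k = true) : ∃ C, Enc A x C ∧ k C = true := by
  unfold nmK at h
  split at h
  · rename_i z hz
    rw [forceC_eq] at h
    exact ⟨z, normF_sound hP hx hz, h⟩
  · exact absurd h (by simp)

theorem tabK1_sound (h : nu ^ (P.I0 + P.J0) ≤ 1 + 1 / 2 ^ P.k) {B : Base} {a c : ℕ}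
    {k : Cell → Bool} (hk : tabK1 P B a c k = true) :
    ∃ C, Enc (algW P h) (baseW B a c) C ∧ k C = true := by
  unfold tabK1 at hk
  split at hk
  · rename_i C hC
    refine ⟨_, ?_, hk⟩
    rw [← tabW_eq_baseW P h]
    exact tabC_sound _ hC
  · exact absurd hk (by simp)

theorem liftK_sound' {p I J : ℕ} {x : W} {X : Cell} (hx : Enc A x X) {k : Cell → Bool}
    (hk : liftK P p I J X k = true) : ∃ C, Enc A x C ∧ k C = true := by
  obtain ⟨C, h1, _, _, _, h2⟩ := liftK_sound hx hk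
  exact ⟨C, h1, h2⟩

theorem ldK_sound (h : nu ^ (P.I0 + P.J0) ≤ 1 + 1 / 2 ^ P.k) (hP : P.Ok) {pt I J : ℕ} {B : Base}
    {a c : ℕ} {k : Cell → Bool} (hk : ldK P pt I J B a c k = true) :
    ∃ C, Enc (algW P h) (baseW B a c) C ∧ k C = true := by
  unfold ldK at hk
  obtain ⟨x, hx, hk⟩ := tabK1_sound h hk
  split at hk
  · obtain ⟨y, hy, hk⟩ := nmK_sound hP hx hk
    exact liftK_sound' hy hk
  · exact nrK_sound hP hx hk

theorem subI_eq (a b : ℤ) : subI a b = a - b := by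
  cases a with
  | ofNat m =>
    cases b with
    | ofNat n => simp only [subI, subZ_eq, Int.ofNat_eq_natCast]
    | negSucc n =>
      simp only [subI, Int.negSucc_eq, Int.ofNat_eq_natCast, Nat.succ_eq_add_one, Nat.add_eq]
      push_cast
      ring
  | negSucc m =>
    cases b with
    | ofNat n =>
      simp only [subI, Int.negSucc_eq, Int.ofNat_eq_natCast, Nat.add_eq]
      push_cast
      ring
    | negSucc n =>
      simp only [subI, subZ_eq, Int.negSucc_eq]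
      ring

theorem addE'_eq (x y : Cell) : addE' x y = addE x y := by
  rw [addE', addE, addZ_eq]

theorem subE'_eq (x y : Cell) : subE' x y = addE x (negC y) := by
  simp only [subE', addE, negC, subI_eq, sub_eq_add_neg]

theorem smulN_sound {n : ℕ} {x : W} {X : Cell} (hx : Enc A x X) :
    Enc A (n * x) (smulN n X) := by
  unfold smulN
  split
  · rename_i h
    rw [Nat.beq_eq] at h
    rw [h, Nat.cast_one, one_mul]
    exact hx
  · have := smulC_sound (n := (n : ℤ)) hx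
    rwa [zsmul_eq_mul, Int.cast_natCast] at this

theorem smulN_I (n : ℕ) (X : Cell) : (smulN n X).I = X.I := by
  unfold smulN
  split <;> rfl

theorem smulN_J (n : ℕ) (X : Cell) : (smulN n X).J = X.J := by
  unfold smulN
  split <;> rfl

theorem tm_sound {n : ℕ} {x y : W} {X Y : Cell} (hx : Enc A x X) (hy : Enc A y Y)
    (hI : X.I + Y.I ≤ P.I0) (hJ : X.J + Y.J ≤ P.J0) :
    Enc A ((n : ℤ) • (x * y)) (mulE (smulN n X) Y) := by
  have h := mulE_sound (smulN_sound (n := n) hx) hy (by rw [smulN_I]; exact hI)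
    (by rw [smulN_J]; exact hJ)
  rwa [mul_assoc, ← Int.cast_natCast, ← zsmul_eq_mul] at h

/-- value of a list of products -/
noncomputable def lval : List (ℤ × W × W) → W
  | [] => 0
  | (n, x, y) :: l => n • (x * y) + lval l

/-- enclosure of a list -/
def RL (A : Alg P W) (u : List (ℤ × W × W)) (c : List (ℤ × Cell × Cell)) : Prop :=
  List.Forall₂ (fun u c => u.1 = c.1 ∧ Enc A u.2.1 c.2.1 ∧ Enc A u.2.2 c.2.2) u c

theorem RL.nil : RL A [] [] := List.Forall₂.nil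

theorem RL.cons {n : ℤ} {x y : W} {X Y : Cell} {u : List (ℤ × W × W)}
    {c : List (ℤ × Cell × Cell)} (hx : Enc A x X) (hy : Enc A y Y) (h : RL A u c) :
    RL A ((n, x, y) :: u) ((n, X, Y) :: c) := List.Forall₂.cons ⟨rfl, hx, hy⟩ h

theorem lcGo_sound : ∀ (u : List (ℤ × W × W)) (c : List (ℤ × Cell × Cell)), RL A u c →
    ∀ {x : W} {X : Cell}, Enc A x X → ∀ {k : Cell → Bool}, lcGo P c X k = true →
    ∃ C, Enc A (x + lval u) C ∧ k C = true
  | [], [], _, x, X, hx, k, h => ⟨X, by rw [lval, add_zero]; exact hx, h⟩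
  | [], _ :: _, hl, _, _, _, _, _ => by unfold RL at hl; cases hl
  | _ :: _, [], hl, _, _, _, _, _ => by unfold RL at hl; cases hl
  | (n, y, z) :: u, (m, Y, Z) :: c, hl, x, X, hx, k, h => by
    unfold RL at hl
    rw [List.forall₂_cons] at hl
    obtain ⟨⟨h1, h2, h3⟩, hl⟩ := hl
    dsimp only at h1 h2 h3
    subst h1
    cases n with
    | ofNat n =>
      rw [lcGo, Bool.and_eq_true, same_iff] at h
      obtain ⟨⟨hp, hI, hJ⟩, h⟩ := h
      have hb : Enc A ((Int.ofNat n) • (y * z)) (mulE (smulN n Y) Z) := by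
        refine tm_sound h2 h3 ?_ ?_
        · have := hx.hI
          change X.I = (smulN n Y).I + Z.I at hI
          rw [smulN_I] at hI
          omega
        · have := hx.hJ
          change X.J = (smulN n Y).J + Z.J at hJ
          rw [smulN_J] at hJ
          omega
      have h4 := addE_sound hx hb hp hI hJ
      rw [← addE'_eq] at h4
      obtain ⟨C, hC, h⟩ := lcGo_sound u c hl h4 h
      exact ⟨C, by rw [lval, ← add_assoc]; exact hC, h⟩
    | negSucc n =>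
      rw [lcGo, Bool.and_eq_true, same_iff] at h
      obtain ⟨⟨hp, hI, hJ⟩, h⟩ := h
      have hb : Enc A (((Nat.succ n : ℕ) : ℤ) • (y * z)) (mulE (smulN (Nat.succ n) Y) Z) := by
        refine tm_sound h2 h3 ?_ ?_
        · have := hx.hI
          change X.I = (smulN (Nat.succ n) Y).I + Z.I at hI
          rw [smulN_I] at hI
          omega
        · have := hx.hJ
          change X.J = (smulN (Nat.succ n) Y).J + Z.J at hJ
          rw [smulN_J] at hJ
          omega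
      have h4 := addE_sound hx (negC_sound hb) hp hI hJ
      rw [← subE'_eq, ← neg_smul] at h4
      obtain ⟨C, hC, h⟩ := lcGo_sound u c hl h4 h
      exact ⟨C, by rw [lval, ← add_assoc]; exact hC, h⟩

theorem dotU_sound {u : List (ℤ × W × W)} {c : List (ℤ × Cell × Cell)} (hl : RL A u c)
    {k : Cell → Bool} (h : dotU P c k = true) : ∃ C, Enc A (lval u) C ∧ k C = true := by
  unfold RL at hl
  cases hl with
  | nil => exact absurd h (by simp [dotU])
  | @cons a b u' c' hab hl =>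
    obtain ⟨n, y, z⟩ := a
    obtain ⟨m, Y, Z⟩ := b
    obtain ⟨h1, h2, h3⟩ := hab
    dsimp only at h1 h2 h3
    subst h1
    cases n with
    | ofNat n =>
      simp only [dotU, Bool.and_eq_true, Nat.ble_eq] at h
      obtain ⟨⟨hI, hJ⟩, h⟩ := h
      exact lcGo_sound _ _ hl (tm_sound h2 h3 hI hJ) h
    | negSucc n =>
      simp only [dotU, Bool.and_eq_true, Nat.ble_eq] at h
      obtain ⟨⟨hI, hJ⟩, h⟩ := h
      have h4 := negC_sound (tm_sound (n := Nat.succ n) h2 h3 hI hJ)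
      rw [← neg_smul] at h4
      exact lcGo_sound _ _ hl h4 h

theorem dotK_sound (hP : P.Ok) {pt I J : ℕ} {u : List (ℤ × W × W)}
    {c : List (ℤ × Cell × Cell)} (hl : RL A u c) {x : W} (hx : x = lval u) {k : Cell → Bool}
    (h : dotK P pt I J c k = true) : ∃ C, Enc A x C ∧ k C = true := by
  obtain ⟨C, hC, h⟩ := dotU_sound hl h
  subst hx
  exact nrK_sound hP hC h

/-- enclosure of a vector -/
structure EncV (A : Alg P W) (v : Fin 3 → W) (c : VC) : Prop where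
  x : Enc A (v 0) c.x
  y : Enc A (v 1) c.y
  z : Enc A (v 2) c.z

theorem etaK_sound (hP : P.Ok) {pt I J : ℕ} {u v : Fin 3 → W} {U V : VC} (hu : EncV A u U)
    (hv : EncV A v V) {k : Cell → Bool} (h : etaK P pt I J U V k = true) :
    ∃ C, Enc A (eta u v) C ∧ k C = true :=
  dotK_sound hP (.cons hu.x hv.x (.cons hu.y hv.y (.cons hu.z hv.z .nil)))
    (by simp only [lval, eta, one_smul, neg_smul]; ring) h

theorem eta2K_sound (hP : P.Ok) {pt I J : ℕ} {u v u' v' : Fin 3 → W} {U V U' V' : VC}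
    (hu : EncV A u U) (hv : EncV A v V) (hu' : EncV A u' U') (hv' : EncV A v' V')
    {k : Cell → Bool} (h : eta2K P pt I J U V U' V' k = true) :
    ∃ C, Enc A (eta u v + eta u' v') C ∧ k C = true :=
  dotK_sound hP (.cons hu.x hv.x (.cons hu.y hv.y (.cons hu.z hv.z
    (.cons hu'.x hv'.x (.cons hu'.y hv'.y (.cons hu'.z hv'.z .nil))))))
    (by simp only [lval, eta, one_smul, neg_smul]; ring) h

theorem dtK_sound (hP : P.Ok) {pt I J : ℕ} {u v : Fin 3 → W} {U V : VC} (hu : EncV A u U)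
    (hv : EncV A v V) {k : Cell → Bool} (h : dtK P pt I J U V k = true) :
    ∃ C, Enc A (dt u v) C ∧ k C = true :=
  dotK_sound hP (.cons hu.x hv.x (.cons hu.y hv.y (.cons hu.z hv.z .nil)))
    (by simp only [lval, dt, one_smul]; ring) h

theorem crsK_sound (hP : P.Ok) {pt I J : ℕ} {u v : Fin 3 → W} {U V : VC} (hu : EncV A u U)
    (hv : EncV A v V) {k : VC → Bool} (h : crsK P pt I J U V k = true) :
    ∃ C, EncV A (crs u v) C ∧ k C = true := by
  obtain ⟨x, hx, h⟩ := dotK_sound (x := crs u v 0) hP (.cons hu.y hv.z (.cons hu.z hv.y .nil))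
    (by simp only [lval, crs, one_smul, neg_smul, Matrix.cons_val_zero]; ring) h
  obtain ⟨y, hy, h⟩ := dotK_sound (x := crs u v 1) hP (.cons hu.z hv.x (.cons hu.x hv.z .nil))
    (by simp only [lval, crs, one_smul, neg_smul, Matrix.cons_val_one, Matrix.cons_val_zero]
        ring) h
  obtain ⟨z, hz, h⟩ := dotK_sound (x := crs u v 2) hP (.cons hu.x hv.y (.cons hu.y hv.x .nil))
    (by simp only [lval, crs, one_smul, neg_smul, Matrix.cons_val]; ring) h
  exact ⟨_, ⟨hx, hy, hz⟩, h⟩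

theorem crs2K_sound (hP : P.Ok) {pt I J : ℕ} {u v u' v' : Fin 3 → W} {U V U' V' : VC}
    (hu : EncV A u U) (hv : EncV A v V) (hu' : EncV A u' U') (hv' : EncV A v' V')
    {k : VC → Bool} (h : crs2K P pt I J U V U' V' k = true) :
    ∃ C, EncV A (fun i => crs u v i + crs u' v' i) C ∧ k C = true := by
  obtain ⟨x, hx, h⟩ := dotK_sound (x := crs u v 0 + crs u' v' 0) hP
    (.cons hu.y hv.z (.cons hu.z hv.y (.cons hu'.y hv'.z (.cons hu'.z hv'.y .nil))))
    (by simp only [lval, crs, one_smul, neg_smul, Matrix.cons_val_zero]; ring) h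
  obtain ⟨y, hy, h⟩ := dotK_sound (x := crs u v 1 + crs u' v' 1) hP
    (.cons hu.z hv.x (.cons hu.x hv.z (.cons hu'.z hv'.x (.cons hu'.x hv'.z .nil))))
    (by simp only [lval, crs, one_smul, neg_smul, Matrix.cons_val_one, Matrix.cons_val_zero]
        ring) h
  obtain ⟨z, hz, h⟩ := dotK_sound (x := crs u v 2 + crs u' v' 2) hP
    (.cons hu.x hv.y (.cons hu.y hv.x (.cons hu'.x hv'.y (.cons hu'.y hv'.x .nil))))
    (by simp only [lval, crs, one_smul, neg_smul, Matrix.cons_val]; ring) h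
  exact ⟨_, ⟨hx, hy, hz⟩, h⟩

/-- enclosure of a list of multiples of vectors -/
def RV (A : Alg P W) (u : List (ℤ × W × (Fin 3 → W))) (c : List (ℤ × Cell × VC)) : Prop :=
  List.Forall₂ (fun u c => u.1 = c.1 ∧ Enc A u.2.1 c.2.1 ∧ EncV A u.2.2 c.2.2) u c

theorem RV.nil : RV A [] [] := List.Forall₂.nil

theorem RV.cons {n : ℤ} {x : W} {y : Fin 3 → W} {X : Cell} {Y : VC}
    {u : List (ℤ × W × (Fin 3 → W))} {c : List (ℤ × Cell × VC)} (hx : Enc A x X)
    (hy : EncV A y Y) (h : RV A u c) : RV A ((n, x, y) :: u) ((n, X, Y) :: c) :=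
  List.Forall₂.cons ⟨rfl, hx, hy⟩ h

/-- component -/
def cmp (i : Fin 3) (u : List (ℤ × W × (Fin 3 → W))) : List (ℤ × W × W) :=
  u.map fun t => (t.1, t.2.1, t.2.2 i)

theorem RV.x {u : List (ℤ × W × (Fin 3 → W))} {c : List (ℤ × Cell × VC)} (h : RV A u c) :
    RL A (cmp 0 u) (c.map fun t => (t.1, t.2.1, t.2.2.x)) := by
  unfold RV at h
  induction h with
  | nil => exact RL.nil
  | cons hab _ ih => exact List.Forall₂.cons ⟨hab.1, hab.2.1, hab.2.2.x⟩ ih

theorem RV.y {u : List (ℤ × W × (Fin 3 → W))} {c : List (ℤ × Cell × VC)} (h : RV A u c) :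
    RL A (cmp 1 u) (c.map fun t => (t.1, t.2.1, t.2.2.y)) := by
  unfold RV at h
  induction h with
  | nil => exact RL.nil
  | cons hab _ ih => exact List.Forall₂.cons ⟨hab.1, hab.2.1, hab.2.2.y⟩ ih

theorem RV.z {u : List (ℤ × W × (Fin 3 → W))} {c : List (ℤ × Cell × VC)} (h : RV A u c) :
    RL A (cmp 2 u) (c.map fun t => (t.1, t.2.1, t.2.2.z)) := by
  unfold RV at h
  induction h with
  | nil => exact RL.nil
  | cons hab _ ih => exact List.Forall₂.cons ⟨hab.1, hab.2.1, hab.2.2.z⟩ ih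

theorem linK_sound (hP : P.Ok) {pt I J : ℕ} {u : List (ℤ × W × (Fin 3 → W))}
    {c : List (ℤ × Cell × VC)} (hl : RV A u c) {v : Fin 3 → W}
    (hv : ∀ i, v i = lval (cmp i u)) {k : VC → Bool} (h : linK P pt I J c k = true) :
    ∃ C, EncV A v C ∧ k C = true := by
  obtain ⟨x, hx, h⟩ := dotK_sound hP hl.x (hv 0) h
  obtain ⟨y, hy, h⟩ := dotK_sound hP hl.y (hv 1) h
  obtain ⟨z, hz, h⟩ := dotK_sound hP hl.z (hv 2) h
  exact ⟨_, ⟨hx, hy, hz⟩, h⟩

theorem smV_sound (hP : P.Ok) {pt I J : ℕ} {s : W} {S : Cell} (hs : Enc A s S) {v : Fin 3 → W}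
    {V : VC} (hv : EncV A v V) {k : VC → Bool} (h : linK P pt I J [(1, S, V)] k = true) :
    ∃ C, EncV A (sm s v) C ∧ k C = true :=
  linK_sound hP (.cons hs hv .nil) (fun i => by simp [lval, cmp, sm]) h

theorem nleK_sound (hP : P.Ok) {x : W} {X : Cell} (hx : Enc A x X) {n q : ℕ}
    (hk : nleK P X n q = true) : ‖x‖ ≤ (n : ℝ) / 2 ^ q := by
  unfold nleK at hk
  split at hk
  · rename_i C hC
    rw [Nat.ble_eq] at hk
    refine (normF_sound hP hx hC).norm_le.trans ?_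
    rw [div_le_div_iff₀ (by positivity) (by positivity)]
    exact_mod_cast hk
  · exact absurd hk (by simp)

theorem finK_sound (h : nu ^ (P.I0 + P.J0) ≤ 1 + 1 / 2 ^ P.k) (hP : P.Ok)
    {u : List (ℤ × W × W)} {c : List (ℤ × Cell × Cell)} (hl : RL (algW P h) u c) {G : Base}
    {n q : ℕ} (hk : finK P c G n q = true) :
    ‖lval u - baseW G 0 0‖ ≤ (n : ℝ) / 2 ^ q := by
  obtain ⟨x, hx, hk⟩ := dotU_sound hl hk
  obtain ⟨g0, hg0, hk⟩ := tabK1_sound h hk
  obtain ⟨g, hg, hk⟩ := nmK_sound hP hg0 hk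
  obtain ⟨g', hg', hk⟩ := liftK_sound' hg hk
  rw [Bool.and_eq_true, same_iff] at hk
  obtain ⟨⟨hp, hI, hJ⟩, hk⟩ := hk
  rw [sub_eq_add_neg]
  rw [subE'_eq] at hk
  exact nleK_sound hP (addE_sound hx (negC_sound hg') hp hI hJ) hk

theorem ld1_sound (h : nu ^ (P.I0 + P.J0) ≤ 1 + 1 / 2 ^ P.k) (hP : P.Ok) {pt I J : ℕ} {B : Base}
    {k : Cell → Cell → Cell → Bool} (hk : ld1 P pt I J B k = true) :
    ∃ x y z, Enc (algW P h) (baseW B 0 0) x ∧ Enc (algW P h) (baseW B 1 0) y ∧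
      Enc (algW P h) (baseW B 0 1) z ∧ k x y z = true := by
  obtain ⟨x, hx, hk⟩ := ldK_sound h hP hk
  obtain ⟨y, hy, hk⟩ := ldK_sound h hP hk
  obtain ⟨z, hz, hk⟩ := ldK_sound h hP hk
  exact ⟨x, y, z, hx, hy, hz, hk⟩

theorem ld2_sound (h : nu ^ (P.I0 + P.J0) ≤ 1 + 1 / 2 ^ P.k) (hP : P.Ok) {pt I J : ℕ} {B : Base}
    {k : Cell → Cell → Cell → Bool} (hk : ld2 P pt I J B k = true) :
    ∃ x y z, Enc (algW P h) (baseW B 2 0) x ∧ Enc (algW P h) (baseW B 1 1) y ∧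
      Enc (algW P h) (baseW B 0 2) z ∧ k x y z = true := by
  obtain ⟨x, hx, hk⟩ := ldK_sound h hP hk
  obtain ⟨y, hy, hk⟩ := ldK_sound h hP hk
  obtain ⟨z, hz, hk⟩ := ldK_sound h hP hk
  exact ⟨x, y, z, hx, hy, hz, hk⟩

theorem smul_nat (N : ℕ) (x : W) : ((N : ℤ) • x) = (N : W) * x := by
  rw [zsmul_eq_mul, Int.cast_natCast]

theorem lcC_sound {N : ℕ} {x y : W} {X Y : Cell} (hx : Enc A x X) (hy : Enc A y Y)
    {k : Cell → Bool} (h : lcC N X Y k = true) : ∃ C, Enc A (N * x + y) C ∧ k C = true := by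
  unfold lcC at h
  rw [Bool.and_eq_true, forceC_eq, same_iff] at h
  obtain ⟨⟨hp, hI, hJ⟩, h⟩ := h
  refine ⟨_, ?_, h⟩
  rw [← smul_nat]
  exact addE_sound (smulC_sound hx) hy hp hI hJ

theorem smK_sound {N : ℕ} {x : W} {X : Cell} (hx : Enc A x X)
    {k : Cell → Bool} (h : smK N X k = true) : ∃ C, Enc A (N * x) C ∧ k C = true := by
  unfold smK at h
  rw [forceC_eq] at h
  refine ⟨_, ?_, h⟩
  rw [← smul_nat]
  exact smulC_sound hx

theorem vec1_sound (h : nu ^ (P.I0 + P.J0) ≤ 1 + 1 / 2 ^ P.k) (hP : P.Ok) {pt I J N : ℕ}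
    {b0 b1 b2 : Base} {k : VC → VC → VC → Bool} (hk : vec1 P pt I J N b0 b1 b2 k = true) :
    ∃ x y z, EncV (algW P h) ![(tabHat b0 b1 b2).P.f, (tabHat b0 b1 b2).Q.f,
        (tabHat b0 b1 b2).Z.f] x ∧
      EncV (algW P h) ![(tabHat b0 b1 b2).P.fu, (tabHat b0 b1 b2).Q.fu,
        (tabHat b0 b1 b2).Z.fu] y ∧
      EncV (algW P h) ![(tabHat b0 b1 b2).a1 N, (tabHat b0 b1 b2).a2 N,
        (tabHat b0 b1 b2).a3 N] z ∧ k x y z = true := by
  obtain ⟨f0, u0, t0, hf0, hu0, ht0, hk⟩ := ld1_sound h hP hk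
  obtain ⟨f1, u1, t1, hf1, hu1, ht1, hk⟩ := ld1_sound h hP hk
  obtain ⟨f2, u2, t2, hf2, hu2, ht2, hk⟩ := ld1_sound h hP hk
  obtain ⟨v0, hv0, hk⟩ := lcC_sound ht0 hf1 hk
  obtain ⟨v1, hv1, hk⟩ := lcC_sound ht1 hf0 hk
  obtain ⟨v2, hv2, hk⟩ := smK_sound ht2 hk
  exact ⟨⟨f0, f1, f2⟩, ⟨u0, u1, u2⟩, ⟨v0, v1, v2⟩, ⟨hf0, hf1, hf2⟩, ⟨hu0, hu1, hu2⟩,
    ⟨hv0, hv1, hv2⟩, hk⟩

theorem vec2_sound (h : nu ^ (P.I0 + P.J0) ≤ 1 + 1 / 2 ^ P.k) (hP : P.Ok) {pt I J N : ℕ}
    {b0 b1 b2 : Base} {k : VC → VC → VC → VC → VC → VC → Bool}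
    (hk : vec2 P pt I J N b0 b1 b2 k = true) :
    ∃ x y z x' y' z', EncV (algW P h) ![(tabHat b0 b1 b2).P.f, (tabHat b0 b1 b2).Q.f,
        (tabHat b0 b1 b2).Z.f] x ∧
      EncV (algW P h) ![(tabHat b0 b1 b2).P.fu, (tabHat b0 b1 b2).Q.fu,
        (tabHat b0 b1 b2).Z.fu] y ∧
      EncV (algW P h) ![(tabHat b0 b1 b2).a1 N, (tabHat b0 b1 b2).a2 N,
        (tabHat b0 b1 b2).a3 N] z ∧
      EncV (algW P h) ![(tabHat b0 b1 b2).P.fuu, (tabHat b0 b1 b2).Q.fuu,
        (tabHat b0 b1 b2).Z.fuu] x' ∧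
      EncV (algW P h) ![(tabHat b0 b1 b2).b1 N, (tabHat b0 b1 b2).b2 N,
        (tabHat b0 b1 b2).b3 N] y' ∧
      EncV (algW P h) ![(tabHat b0 b1 b2).c1 N, (tabHat b0 b1 b2).c2 N,
        (tabHat b0 b1 b2).c3 N] z' ∧ k x y z x' y' z' = true := by
  obtain ⟨f0, u0, t0, hf0, hu0, ht0, hk⟩ := ld1_sound h hP hk
  obtain ⟨f1, u1, t1, hf1, hu1, ht1, hk⟩ := ld1_sound h hP hk
  obtain ⟨f2, u2, t2, hf2, hu2, ht2, hk⟩ := ld1_sound h hP hk
  obtain ⟨uu0, ut0, tt0, huu0, hut0, htt0, hk⟩ := ld2_sound h hP hk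
  obtain ⟨uu1, ut1, tt1, huu1, hut1, htt1, hk⟩ := ld2_sound h hP hk
  obtain ⟨uu2, ut2, tt2, huu2, hut2, htt2, hk⟩ := ld2_sound h hP hk
  obtain ⟨v0, hv0, hk⟩ := lcC_sound ht0 hf1 hk
  obtain ⟨v1, hv1, hk⟩ := lcC_sound ht1 hf0 hk
  obtain ⟨v2, hv2, hk⟩ := smK_sound ht2 hk
  obtain ⟨q0, hq0, hk⟩ := lcC_sound hut0 hu1 hk
  obtain ⟨q1, hq1, hk⟩ := lcC_sound hut1 hu0 hk
  obtain ⟨q2, hq2, hk⟩ := smK_sound hut2 hk
  obtain ⟨r0, hr0, hk⟩ := lcC_sound htt0 ht1 hk
  obtain ⟨w0, hw0, hk⟩ := lcC_sound hr0 hv1 hk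
  obtain ⟨r1, hr1, hk⟩ := lcC_sound htt1 ht0 hk
  obtain ⟨w1, hw1, hk⟩ := lcC_sound hr1 hv0 hk
  rw [← Nat.cast_mul] at hk
  obtain ⟨w2, hw2, hk⟩ := smK_sound htt2 hk
  have hw2' : Enc (algW P h) ((N : W) * ((N : W) * baseW b2 0 2)) w2 := by
    rw [← mul_assoc, ← Nat.cast_mul]
    exact hw2
  exact ⟨⟨f0, f1, f2⟩, ⟨u0, u1, u2⟩, ⟨v0, v1, v2⟩, ⟨uu0, uu1, uu2⟩, ⟨q0, q1, q2⟩,
    ⟨w0, w1, w2⟩, ⟨hf0, hf1, hf2⟩, ⟨hu0, hu1, hu2⟩, ⟨hv0, hv1, hv2⟩,
    ⟨huu0, huu1, huu2⟩, ⟨hq0, hq1, hq2⟩, ⟨hw0, hw1, hw2'⟩, hk⟩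

end

end Pool.MP_ce2c94_gt.GK
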